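import Pool.Agent.Helper61.PC.Step
import Pool.Agent.Helper17.PC.Comb
import Pool.Agent.Helper17.PC.Mon
import Pool.Agent.Helper77.PC.Count
import Pool.Agent.Helper77.GS.Red
import Pool.Agent.Helper64.PC.Defs

/-!
# Project PC: the algebraic core for sections of degree `d` at least `2`
-/

set_option autoImplicit false

namespace Pool.Agent.PC

open Pool.Agent.GS MvPolynomial

universe u

theorem prod_zpow_sum {K ι : Type*} [Field K] (T : K) (hT : T ≠ 0) (s : Finset ι) (m : ι → ℤ) :
    ∏ i ∈ s, T ^ m i = T ^ ∑ i ∈ s, m i := by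
  classical
  induction s using Finset.induction_on with
  | empty => simp
  | insert a s ha ih => rw [Finset.prod_insert ha, Finset.sum_insert ha, ih, zpow_add₀ hT]

theorem rk_scale {F E : Type u} [Field F] [Field E] [Algebra F E] {q t : ℕ} (u : Fin q → E) (hr : Rk F u t) (T : E)
    (hT : T ≠ 0) : Rk F (fun i => u i / T) t := by
  intro e he he0
  obtain ⟨a, ha, hc⟩ := hr e he fun b i hi => he0 b i (by
    show u i / T = 0
    rw [hi, zero_div])
  refine ⟨a, ha, ?_⟩
  have h1 : ∏ i, (u i / T) ^ ∑ b, a b * e b i = ∏ i, u i ^ ∑ b, a b * e b i := by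
    have h2 : ∏ i, T ^ ∑ b, a b * e b i = 1 := by
      rw [prod_zpow_sum T hT, Finset.sum_comm]
      have h3 : ∑ b, ∑ i, a b * e b i = 0 := by
        refine Finset.sum_eq_zero fun b _ => ?_
        rw [← Finset.mul_sum, he b, mul_zero]
      rw [h3, zpow_zero]
    simp only [div_zpow]
    rw [Finset.prod_div_distrib, h2, div_one]
  rw [h1]
  exact hc

theorem mon_scale {K : Type*} [Field K] {N d : ℕ} (x : Fin (N + 1) → K) (c : K) (s : Sym (Fin (N + 1)) d) :
    mon (fun j => x j / c) s = mon x s / c ^ d := by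
  have h1 : ∀ t : Multiset (Fin (N + 1)), (t.map fun j => x j / c).prod = (t.map x).prod / c ^ Multiset.card t := by
    intro t
    rw [Multiset.prod_map_div, Multiset.map_const', Multiset.prod_replicate]
  have h2 : Multiset.card (s : Multiset (Fin (N + 1))) = d := s.2
  unfold mon
  rw [h1, h2]

theorem form_scale {k K : Type u} [Field k] [Field K] [Algebra k K] {N d : ℕ} (g : Sym (Fin (N + 1)) d → k)
    (x : Fin (N + 1) → K) (c : K) : form g (fun j => x j / c) = form g x / c ^ d := by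
  unfold form
  rw [Finset.sum_div]
  exact Finset.sum_congr rfl fun s _ => by rw [mon_scale, mul_div_assoc]

theorem map_mon {K L : Type*} [Field K] [Field L] (φ : K →+* L) {N d : ℕ} (x : Fin (N + 1) → K) (s : Sym (Fin (N + 1)) d) :
    φ (mon x s) = mon (fun j => φ (x j)) s := by
  unfold mon
  rw [map_multiset_prod, Multiset.map_map]
  rfl

theorem cl_mon {k K : Type u} [Field k] [Field K] [Algebra k K] {N d : ℕ} (S : Set K) (x : Fin (N + 1) → K)
    (hx : ∀ j, x j ∈ cl k S) (s : Sym (Fin (N + 1)) d) : mon x s ∈ cl k S := by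
  unfold mon
  obtain ⟨F', hF', -⟩ := FIN.aclk61 (k := k) S
  rw [← hF']
  refine F'.multiset_prod_mem _ fun y hy => ?_
  obtain ⟨j, -, rfl⟩ := Multiset.mem_map.mp hy
  rw [← SetLike.mem_coe, hF']
  exact hx j

theorem onX_map {k F E Ω : Type u} [Field k] [Field F] [Field E] [Field Ω] [Algebra k F] [Algebra F E] [Algebra k E]
    [IsScalarTower k F E] [Algebra F Ω] [Algebra k Ω] [IsScalarTower k F Ω] {N : ℕ} (I : Set (MvPolynomial (Fin (N + 1)) k))
    (φ : E →ₐ[F] Ω) (x : Fin (N + 1) → E) (h : OnX I x) : OnX I fun j => φ (x j) := by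
  intro f hf
  have h1 := congrArg (φ.restrictScalars k) (h f hf)
  rw [map_zero, MvPolynomial.comp_aeval_apply] at h1
  exact h1

/-- numerics -/
theorem num2 {n q r d s R : ℕ} (hd : 2 ≤ d) (h : r + d * (r * n + 1) ≤ d * q) (hs : 1 ≤ s)
    (hR : R ≤ r * ((d * s + 1) * n)) (hR' : s < n → R ≤ r * ((s + 1) * n + (d * s - s) * s))
    (hc : q * (d * s + 1) + 2 ≤ R + (d * s + 1) + q) : False := by
  have h1 : s * (r + d * (r * n + 1)) ≤ s * (d * q) := Nat.mul_le_mul_left s h
  rcases Nat.lt_or_ge s n with hsn | hsn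
  · obtain ⟨t, rfl⟩ := Nat.exists_eq_add_of_lt hsn
    obtain ⟨D, rfl⟩ := Nat.exists_eq_add_of_le hd
    have h2 : (2 + D) * s - s = (1 + D) * s := by
      have : (2 + D) * s = (1 + D) * s + s := by ring
      omega
    have h3 := hR' hsn
    rw [h2] at h3
    obtain ⟨S, rfl⟩ := Nat.exists_eq_add_of_le hs
    nlinarith [Nat.zero_le (r * (t + 1) * ((1 + D) * S)), Nat.zero_le (r * (t + 1) * D)]
  · have h3 : r * n ≤ r * s := Nat.mul_le_mul_left r hsn
    nlinarith

theorem core2 {N n q r d : ℕ} (hd : 2 ≤ d) (h : r + d * (r * n + 1) ≤ d * q) : Core.{u} N n q r d := by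
  classical
  intro k₀ F E _ _ _ _ _ _ _ _ _ I hI hDim g hg s0 x hX hu hab hrk
  have hq : 0 < q := by
    rcases Nat.eq_zero_or_pos q with rfl | h0
    · have : 0 < d * (r * n + 1) := by positivity
      omega
    · exact h0
  -- normalisation
  have hne : ∀ σ, ∃ j, x σ j ≠ 0 := by
    intro σ
    by_contra hcon
    push Not at hcon
    have h1 := Finset.prod_ne_zero_iff.mp (hu ⟨0, hq⟩) σ (Finset.mem_univ σ)
    apply h1
    have h2 : x σ = fun j => (x σ j) / 0 := by
      funext j
      rw [hcon j, zero_div]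
    rw [h2, form_scale, zero_pow (by omega), div_zero]
  choose j0 hj0 using hne
  let y : Fin r → Fin (N + 1) → E := fun σ j => x σ j / x σ (j0 σ)
  have hy1 : ∀ σ, y σ (j0 σ) = 1 := fun σ => div_self (hj0 σ)
  have hyX : ∀ σ, OnX I (y σ) := by
    intro σ
    have h1 := onX_smul I hI (x σ) (hX σ) (x σ (j0 σ))⁻¹
    have h2 : (fun a => (x σ (j0 σ))⁻¹ * x σ a) = y σ := by
      funext a
      simp only [y]
      rw [div_eq_mul_inv, mul_comm]
    rwa [h2] at h1
  let T : E := ∏ σ, x σ (j0 σ) ^ d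
  have hT : T ≠ 0 := Finset.prod_ne_zero_iff.mpr fun σ _ => pow_ne_zero _ (hj0 σ)
  have huy : ∀ i, ∏ σ, form (g i) (y σ) = (∏ σ, form (g i) (x σ)) / T := by
    intro i
    rw [← Finset.prod_div_distrib]
    exact Finset.prod_congr rfl fun σ _ => form_scale _ _ _
  have huy0 : ∀ i, ∏ σ, form (g i) (y σ) ≠ 0 := by
    intro i
    rw [huy]
    exact div_ne_zero (hu i) hT
  have hrk' : Rk F (fun i => ∏ σ, form (g i) (y σ)) 1 := by
    have h1 := rk_scale _ hrk T hT
    simp only [huy]
    exact h1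
  -- a nonconstant coordinate
  obtain ⟨jf, hf⟩ : ∃ j, ¬ Cst F (y s0 j) := by
    by_contra hcon
    push Not at hcon
    obtain ⟨a, b, hab⟩ := hab
    apply hab
    obtain ⟨ca, hca⟩ := hcon a
    obtain ⟨cb, hcb⟩ := hcon b
    refine ⟨ca / cb, ?_⟩
    rw [map_div₀, ← hca, ← hcb]
    simp only [y]
    rw [div_div_div_cancel_right₀ (hj0 s0)]
  -- the dimensions of the spans
  let D : Fin r → ℕ := fun σ => Module.finrank F (Submodule.span F (Set.range (y σ)))
  have hfd : ∀ σ, FiniteDimensional F (Submodule.span F (Set.range (y σ))) := fun σ =>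
    FiniteDimensional.span_of_finite F (Set.finite_range _)
  have hD1 : ∀ σ, 1 ≤ D σ := by
    intro σ
    have := hfd σ
    rw [Nat.one_le_iff_ne_zero]
    intro h0
    have h1 := Submodule.finrank_eq_zero.mp h0
    have h2 : y σ (j0 σ) ∈ Submodule.span F (Set.range (y σ)) := Submodule.subset_span ⟨_, rfl⟩
    rw [h1, Submodule.mem_bot, hy1] at h2
    exact one_ne_zero h2
  have hD2 : 2 ≤ D s0 := by
    have := hfd s0
    have hli : LinearIndependent F ![(1 : E), y s0 jf] := by
      rw [LinearIndependent.pair_iff]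
      intro s t hst
      have ht : t = 0 := by
        by_contra ht
        apply hf
        refine ⟨- s / t, ?_⟩
        have ht' : algebraMap F E t ≠ 0 := (map_ne_zero _).2 ht
        rw [map_div₀, map_neg, eq_div_iff ht']
        rw [Algebra.smul_def, Algebra.smul_def, mul_one] at hst
        linear_combination hst
      rw [ht, zero_smul, add_zero, Algebra.smul_def, mul_one] at hst
      exact ⟨(map_eq_zero _).1 hst, ht⟩
    have h1 : Module.finrank F (Submodule.span F (Set.range ![(1 : E), y s0 jf])) = 2 := by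
      have h1 := finrank_span_eq_card hli
      rw [Fintype.card_fin] at h1
      exact h1
    rw [← h1]
    apply Submodule.finrank_mono
    rw [Submodule.span_le]
    rintro _ ⟨i, rfl⟩
    fin_cases i
    · show (1 : E) ∈ _
      rw [← hy1 s0]
      exact Submodule.subset_span ⟨_, rfl⟩
    · exact Submodule.subset_span ⟨_, rfl⟩
  have hr : (Finset.univ : Finset (Fin r)).Nonempty := ⟨s0, Finset.mem_univ _⟩
  obtain ⟨s1, -, hs1⟩ := Finset.exists_max_image Finset.univ D hr
  obtain ⟨s, hs⟩ : ∃ s, D s1 = s + 1 := ⟨D s1 - 1, by have := hD1 s1; omega⟩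
  have hs' : 1 ≤ s := by
    have := hs1 s0 (Finset.mem_univ _)
    omega
  -- the copies
  obtain ⟨Ω, _, _, _, ⟨C⟩⟩ := exists_cop F E (d * s + 1)
  let _ : Algebra k₀ Ω := ((algebraMap F Ω).comp (algebraMap k₀ F)).toAlgebra
  have htw : IsScalarTower k₀ F Ω := IsScalarTower.of_algebraMap_eq fun _ => rfl
  -- indices
  let m := Fintype.card (Sym (Fin (N + 1)) d)
  let e : Sym (Fin (N + 1)) d ≃ Fin m := Fintype.equivFin _
  let ℓ : Fin q → Fin m → F := fun i j => g i (e.symm j)
  let v : Fin r → Fin m → E := fun σ j => mon (y σ) (e.symm j)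
  have hform : ∀ i σ, ∑ j, algebraMap F E (ℓ i j) * v σ j = form (g i) (y σ) := by
    intro i σ
    unfold form
    exact e.symm.sum_comp fun s => algebraMap F E (g i s) * mon (y σ) s
  have hℓ : AlgebraicIndependent k₀ fun t : Fin q × Fin m => ℓ t.1 t.2 :=
    hg.comp (fun t : Fin q × Fin m => (t.1, e.symm t.2)) (by
      rintro ⟨a, b⟩ ⟨a', b'⟩ hh
      have h1 := Prod.mk.inj hh
      exact Prod.ext h1.1 (e.symm.injective h1.2))
  let X : Set E := {z | (∃ σ j, z = y σ j) ∨ ∃ σ j, z = v σ j}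
  let B : Set Ω := ⋃ σ ∈ (Finset.univ : Finset (Fin r)), ⋃ a, Set.range fun j => C.φ a (y σ j)
  have hXB : (⋃ a, C.φ a '' X) ⊆ cl k₀ B := by
    have h1 : ∀ a σ j, C.φ a (y σ j) ∈ cl k₀ B := fun a σ j => subset_cl _ (by
      simp only [B, Set.mem_iUnion]
      exact ⟨σ, Finset.mem_univ σ, a, j, rfl⟩)
    intro w hw
    obtain ⟨a, z, hz, rfl⟩ := Set.mem_iUnion.mp hw
    rcases hz with ⟨σ, j, rfl⟩ | ⟨σ, j, rfl⟩
    · exact h1 a σ j
    · have h2 := map_mon (C.φ a : E →+* Ω) (y σ) (e.symm j)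
      show (C.φ a : E →+* Ω) (mon (y σ) (e.symm j)) ∈ _
      rw [h2]
      exact cl_mon B _ (h1 a σ) _
  -- the rank of one copy of one point
  have hrk1 : ∀ a σ, rk k₀ (Set.range fun j => C.φ a (y σ j)) ≤ n := by
    intro a σ
    refine le_trans (rk_mono ?_) (hDim Ω (fun j => C.φ a (y σ j)) (onX_map I (C.φ a) (y σ) (hyX σ)))
    rintro _ ⟨j, rfl⟩
    refine ⟨j, j0 σ, ?_⟩
    show C.φ a (y σ j) = C.φ a (y σ j) / C.φ a (y σ (j0 σ))
    rw [hy1, map_one, div_one]
  have hB1 : rk k₀ B ≤ ((r * ((d * s + 1) * n) : ℕ) : ℕ∞) := by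
    have h1 := FIN.rk_iUnion61 (k := k₀) (Finset.univ : Finset (Fin r)) (fun σ => ⋃ a, Set.range fun j => C.φ a (y σ j))
      ((d * s + 1) * n) (fun σ _ => by
        have h2 := FIN.rk_iUnion61 (k := k₀) (Finset.univ : Finset (Fin (d * s + 1)))
          (fun a => Set.range fun j => C.φ a (y σ j)) n (fun a _ => hrk1 a σ)
        rw [Finset.card_univ, Fintype.card_fin] at h2
        refine le_trans (rk_mono ?_) h2
        intro z hz
        obtain ⟨a, hz⟩ := Set.mem_iUnion.mp hz
        exact Set.mem_iUnion₂.mpr ⟨a, Finset.mem_univ a, hz⟩)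
    rw [Finset.card_univ, Fintype.card_fin] at h1
    exact h1
  have hB2 : s < n → rk k₀ B ≤ ((r * ((s + 1) * n + (d * s - s) * s) : ℕ) : ℕ∞) := by
    intro hsn
    have h1 := FIN.rk_iUnion61 (k := k₀) (Finset.univ : Finset (Fin r)) (fun σ => ⋃ a, Set.range fun j => C.φ a (y σ j))
      ((s + 1) * n + (d * s - s) * s) (fun σ _ => by
        obtain ⟨t, ht⟩ : ∃ t, D σ = t + 1 := ⟨D σ - 1, by have := hD1 σ; omega⟩
        have hts : t ≤ s := by
          have := hs1 σ (Finset.mem_univ _)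
          omega
        have hds : s + s ≤ d * s := by
          calc s + s = 2 * s := by ring
            _ ≤ d * s := Nat.mul_le_mul_right s hd
        have h2 := rk_copies (k₀ := k₀) C (y σ) (j0 σ) (hy1 σ) ht (by omega) (fun a => hrk1 a σ)
        refine h2.trans ?_
        have h3 : (t + 1) * n + (d * s + 1 - t - 1) * t ≤ (s + 1) * n + (d * s - s) * s := by
          obtain ⟨w, rfl⟩ := Nat.exists_eq_add_of_le hts
          obtain ⟨w', hw'⟩ := Nat.exists_eq_add_of_le hds
          have h4 : d * (t + w) + 1 - t - 1 = t + w + w + w' := by omega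
          have h5 : d * (t + w) - (t + w) = t + w + w' := by omega
          rw [h4, h5]
          have hwn : w * (t + w) ≤ w * n := Nat.mul_le_mul_left w hsn.le
          nlinarith [Nat.zero_le (w * w'), Nat.zero_le (w * t), Nat.zero_le (w * w)]
        exact_mod_cast h3)
    rw [Finset.card_univ, Fintype.card_fin] at h1
    exact h1
  obtain ⟨R, hR0, hR1, hR2⟩ : ∃ R : ℕ, rk k₀ B ≤ (R : ℕ∞) ∧ R ≤ r * ((d * s + 1) * n) ∧
      (s < n → R ≤ r * ((s + 1) * n + (d * s - s) * s)) := by
    have hfin : rk k₀ B ≠ ⊤ := ne_top_of_le_ne_top (ENat.natCast_ne_top _) hB1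
    obtain ⟨R, hR⟩ := ENat.ne_top_iff_exists.mp hfin
    refine ⟨R, hR.ge, ?_, fun hsn => ?_⟩
    · rw [← hR] at hB1
      exact_mod_cast hB1
    · have h1 := hB2 hsn
      rw [← hR] at h1
      exact_mod_cast h1
  -- the number of drops
  have hspan : d * s + 1 ≤ Module.finrank F (Submodule.span F (Set.range (v s1))) := by
    have h1 := span_mon (d := d) (y s1) (le_of_eq hs.symm)
    have h2 : Set.range (v s1) = Set.range (mon (d := d) (y s1)) := e.symm.surjective.range_comp (mon (d := d) (y s1))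
    rw [h2]
    exact h1
  have hcount := count (k₀ := k₀) (by omega) C ℓ hℓ X (y s0 jf) hf (Or.inl ⟨_, _, rfl⟩) (R := R)
    ((rk_le_of_subset hXB).trans hR0) (fun i => ∏ σ, form (g i) (y σ)) huy0 hrk' (fun _ => d * s + 1) (fun i => by
      have h1 := drops (k₀ := k₀) C X v (fun σ j => Or.inr ⟨σ, j, rfl⟩) (ℓ i) (∏ σ, form (g i) (y σ)) (huy0 i)
        (Finset.prod_congr rfl fun σ _ => hform i σ) s1 hspan
      rw [min_self] at h1
      exact h1)
  rw [Finset.sum_const, Finset.card_univ, Fintype.card_fin, smul_eq_mul] at hcount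
  exact num2 hd h hs' hR1 hR2 hcount

end Pool.Agent.PC
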