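import Pool.Agent.Helper61.PC.Copies

/-!
# Project PC: the cutting lemma in the language of closures, and the number of drops
-/

set_option autoImplicit false

namespace Pool.Agent.PC

open Pool.Agent.GS MvPolynomial

universe u

/-- a subfield of an algebraically closed field, algebraically closed in it -/
theorem acl_isAlgClosed {Ω : Type u} [Field Ω] [IsAlgClosed Ω] (F : Subfield Ω)
    (hacl : ∀ p : Polynomial Ω, p ≠ 0 → (∀ i, p.coeff i ∈ F) → ∀ z, p.eval z = 0 → z ∈ F) : IsAlgClosed F := by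
  apply IsAlgClosed.of_exists_root
  intro p hp hirr
  have hdeg : (p.map (algebraMap F Ω)).degree ≠ 0 := by
    rw [Polynomial.degree_map]
    exact (Polynomial.degree_pos_of_irreducible hirr).ne'
  obtain ⟨z, hz⟩ := IsAlgClosed.exists_root _ hdeg
  have hzF : z ∈ F := hacl (p.map (algebraMap F Ω)) (by
    rw [Ne, Polynomial.map_eq_zero]
    exact hp.ne_zero) (fun i => by
    rw [Polynomial.coeff_map]
    exact (p.coeff i).2) z hz
  refine ⟨⟨z, hzF⟩, ?_⟩
  have h1 : algebraMap F Ω (p.eval ⟨z, hzF⟩) = 0 := by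
    rw [← Polynomial.eval₂_at_apply, ← Polynomial.eval_map]
    exact hz
  exact (map_eq_zero _).mp h1

theorem cl_sub_acl {k K : Type u} [Field k] [Field K] [Algebra k K] (s : Set K) (F' : Subfield K)
    (hacl : ∀ p : Polynomial K, p ≠ 0 → (∀ i, p.coeff i ∈ F') → ∀ z, p.eval z = 0 → z ∈ F')
    (hk : ∀ c : k, algebraMap k K c ∈ F') (hs : ∀ y ∈ s, y ∈ F') (z : K) (hz : z ∈ cl k s) : z ∈ F' := by
  rw [mem_cl] at hz
  have hsub : ∀ y : Algebra.adjoin k s, (y : K) ∈ F' := by
    rintro ⟨y, hy⟩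
    refine Algebra.adjoin_induction (s := s) (p := fun y _ => y ∈ F') ?_ ?_ ?_ ?_ hy
    · exact hs
    · exact hk
    · intro a b _ _ ha hb
      exact F'.add_mem ha hb
    · intro a b _ _ ha hb
      exact F'.mul_mem ha hb
  obtain ⟨P, hP, hPz⟩ := hz
  exact hacl (P.map (algebraMap (Algebra.adjoin k s) K)) (by
    rw [Ne, Polynomial.map_eq_zero_iff (FaithfulSMul.algebraMap_injective _ _)]
    exact hP) (fun i => by
      rw [Polynomial.coeff_map]
      exact hsub _) z (by
      rw [Polynomial.eval_map]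
      exact hPz)

theorem ai_of_not_mem {k K ι : Type u} [Field k] [Field K] [Algebra k K] (T : Set K) (K₁ : Subfield K)
    (hK : (K₁ : Set K) = cl k T) (x : ι → K) (h : ∀ i, x i ∉ cl k (T ∪ x '' {i}ᶜ)) : AlgebraicIndependent K₁ x := by
  have hinj : Function.Injective x := by
    intro i j hij
    by_contra hne
    exact h i (subset_cl _ (Or.inr ⟨j, fun h' => hne h'.symm, hij.symm⟩))
  rw [← algebraicIndependent_subtype_range hinj, ← indep_iff, Matroid.indep_iff_forall_notMem_closure_sdiff (by simp)]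
  rintro _ ⟨i, rfl⟩ hmem
  apply h i
  refine cl_mono ?_ (cl_over T K₁ hK _ hmem)
  apply Set.union_subset_union_right
  rintro _ ⟨⟨j, rfl⟩, hj⟩
  refine ⟨j, ?_, rfl⟩
  rintro rfl
  exact hj rfl

/-- the cutting lemma in the language of closures -/
theorem cut_cl {k₀ Ω : Type u} [Field k₀] [Field Ω] [IsAlgClosed Ω] [Algebra k₀ Ω] {m r e : ℕ} (A X : Set Ω)
    (l : Fin m → Ω) (x : Fin r → Fin m → Ω) (hx : ∀ σ j, x σ j ∈ cl k₀ (A ∪ X)) (N : Ω) (hN0 : N ≠ 0)
    (hN : ∏ σ, ∑ j, x σ j * l j = N) (hNA : N ∈ cl k₀ (A ∪ X)) (s : Finset (Fin m))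
    (hs : ∀ j, l j ∈ cl k₀ (A ∪ l '' (s : Set (Fin m))))
    (hind : ∀ j ∈ s, l j ∉ cl k₀ (A ∪ X ∪ l '' ((s.erase j : Finset (Fin m)) : Set (Fin m)))) (s0 : Fin r)
    (z : Fin (e + 1) → Fin m)
    (hz : ∀ c : Fin (e + 1) → Ω, (∀ i, c i ∈ cl k₀ A) → ∑ i, c i * x s0 (z i) = 0 → ∀ i, c i = 0) :
    s.card + e + 1 ≤ m := by
  classical
  obtain ⟨H, hH, hHacl⟩ := FIN.aclk61 (k := k₀) A
  obtain ⟨K₁, hK, hKacl⟩ := FIN.aclk61 (k := k₀) (A ∪ X)
  have hmH : ∀ y, y ∈ H ↔ y ∈ cl k₀ A := fun y => by rw [← SetLike.mem_coe, hH]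
  have hmK : ∀ y, y ∈ K₁ ↔ y ∈ cl k₀ (A ∪ X) := fun y => by rw [← SetLike.mem_coe, hK]
  have hle : H ≤ K₁ := by
    intro y hy
    rw [hmK]
    rw [hmH] at hy
    exact cl_mono Set.subset_union_left hy
  let _ : Algebra H K₁ := (Subfield.inclusion hle).toAlgebra
  have htower : IsScalarTower H K₁ Ω := IsScalarTower.of_algebraMap_eq fun _ => rfl
  have hac : IsAlgClosed H := acl_isAlgClosed H hHacl
  let b : Fin s.card → Fin m := fun i => (s.equivFin.symm i : Fin m)
  have hbs : ∀ i, b i ∈ s := fun i => (s.equivFin.symm i).2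
  have hbinj : Function.Injective b := Subtype.val_injective.comp s.equivFin.symm.injective
  have hb : AlgebraicIndependent K₁ fun i => l (b i) := by
    have h1 : AlgebraicIndependent K₁ fun i : ULift.{u} (Fin s.card) => l (b i.down) := by
      refine ai_of_not_mem (A ∪ X) K₁ hK _ fun i hi => hind (b i.down) (hbs _) (cl_mono ?_ hi)
      apply Set.union_subset_union_right
      rintro _ ⟨j, hj, rfl⟩
      refine ⟨b j.down, ?_, rfl⟩
      rw [Finset.mem_coe, Finset.mem_erase]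
      refine ⟨fun h => hj ?_, hbs _⟩
      exact ULift.ext _ _ (hbinj h)
    exact h1.comp (fun i => ULift.up i) ULift.up_injective
  have hl : ∀ j, l j ∈ cl H (Set.range fun i => l (b i)) := by
    intro j
    obtain ⟨F', hF', hacl'⟩ := FIN.aclk61 (k := H) (Set.range fun i => l (b i))
    have hm' : ∀ y, y ∈ F' ↔ y ∈ cl H (Set.range fun i => l (b i)) := fun y => by rw [← SetLike.mem_coe, hF']
    rw [← hm']
    refine cl_sub_acl (k := k₀) (A ∪ l '' (s : Set (Fin m))) F' hacl' ?_ ?_ _ (hs j)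
    · intro c
      rw [hm']
      have h1 : algebraMap k₀ Ω c ∈ H := by
        rw [hmH]
        exact cl_cst _ _
      exact cl_cst (k := H) _ ⟨_, h1⟩
    · rintro y (hy | ⟨i, hi, rfl⟩)
      · rw [hm']
        have h1 : y ∈ H := by
          rw [hmH]
          exact subset_cl _ hy
        exact cl_cst (k := H) _ ⟨_, h1⟩
      · rw [hm']
        refine subset_cl _ ⟨s.equivFin ⟨i, hi⟩, ?_⟩
        show l (s.equivFin.symm (s.equivFin ⟨i, hi⟩) : Fin m) = l i
        rw [Equiv.symm_apply_apply]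
  let x' : Fin r → Fin m → K₁ := fun σ j => ⟨x σ j, (hmK _).mpr (hx σ j)⟩
  have hlin : LinearIndependent H fun i => x' s0 (z i) := by
    rw [Fintype.linearIndependent_iff]
    intro c hc i
    have h1 := hz (fun i => (c i : Ω)) (fun i => (hmH _).mp (c i).2) (by
      have h2 := congrArg (algebraMap K₁ Ω) hc
      rw [map_sum, map_zero] at h2
      rw [← h2]
      refine Finset.sum_congr rfl fun i _ => ?_
      rw [Algebra.smul_def, map_mul]
      rfl) i
    exact Subtype.ext h1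
  refine cut (K₁ := K₁) l b hb hl x' ⟨N, (hmK _).mpr hNA⟩ (fun h => hN0 (congrArg Subtype.val h)) hN s0 e ?_
  have h1 := finrank_span_eq_card hlin
  rw [Fintype.card_fin] at h1
  rw [← h1]
  have : FiniteDimensional H (Submodule.span H (Set.range (x' s0))) := FiniteDimensional.span_of_finite H (Set.finite_range _)
  apply Submodule.finrank_mono
  apply Submodule.span_mono
  rintro _ ⟨i, rfl⟩
  exact ⟨z i, rfl⟩

/-- all but `d` of the coordinates of `l` generate `l` over `A` -/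
def Gen (k₀ : Type u) {Ω : Type u} [Field k₀] [Field Ω] [Algebra k₀ Ω] {m : ℕ} (A : Set Ω) (l : Fin m → Ω) (d : ℕ) : Prop :=
  ∃ s : Finset (Fin m), s.card + d ≤ m ∧ ∀ j, l j ∈ cl k₀ (A ∪ l '' (s : Set (Fin m)))

section

variable {k₀ Ω : Type u} [Field k₀] [Field Ω] [Algebra k₀ Ω] {m : ℕ}

theorem Gen.zero (A : Set Ω) (l : Fin m → Ω) : Gen k₀ A l 0 := by
  refine ⟨Finset.univ, by simp, fun j => subset_cl _ (Or.inr ⟨j, by simp, rfl⟩)⟩

theorem Gen.mono {A B : Set Ω} {l : Fin m → Ω} {d : ℕ} (h : Gen k₀ A l d) (hAB : A ⊆ B) : Gen k₀ B l d := by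
  obtain ⟨s, hs, hs'⟩ := h
  exact ⟨s, hs, fun j => cl_mono (Set.union_subset_union_left _ hAB) (hs' j)⟩

/-- exchange -/
theorem exch (B : Set Ω) (l : Fin m → Ω) (N : Ω) (s : Finset (Fin m)) (h : N ∈ cl k₀ (B ∪ l '' (s : Set (Fin m)))) :
    N ∈ cl k₀ B ∨ ∃ j ∈ s, l j ∈ cl k₀ (insert N (B ∪ l '' ((s.erase j : Finset (Fin m)) : Set (Fin m)))) := by
  classical
  induction s using Finset.induction_on with
  | empty =>
    left
    simpa using h
  | insert a s ha ih =>
    by_cases h1 : N ∈ cl k₀ (B ∪ l '' (s : Set (Fin m)))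
    · rcases ih h1 with h2 | ⟨j, hj, h2⟩
      · exact Or.inl h2
      · refine Or.inr ⟨j, Finset.mem_insert_of_mem hj, cl_mono ?_ h2⟩
        apply Set.insert_subset_insert
        apply Set.union_subset_union_right
        apply Set.image_mono
        rw [Finset.coe_subset]
        exact Finset.erase_subset_erase _ (Finset.subset_insert _ _)
    · right
      refine ⟨a, Finset.mem_insert_self _ _, ?_⟩
      rw [Finset.erase_insert ha]
      refine Matroid.mem_closure_insert h1 ?_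
      refine cl_mono ?_ h
      rw [Finset.coe_insert, Set.image_insert_eq, Set.union_insert]

/-- one more copy: one drop -/
theorem step (A X : Set Ω) (l : Fin m → Ω) (N : Ω) (d : ℕ) (hg : Gen k₀ A l d) (hN : N ∈ cl k₀ (A ∪ X ∪ Set.range l))
    (hcut : ∀ s : Finset (Fin m), (∀ j, l j ∈ cl k₀ (A ∪ l '' (s : Set (Fin m)))) →
      (∀ j ∈ s, l j ∉ cl k₀ (A ∪ X ∪ l '' ((s.erase j : Finset (Fin m)) : Set (Fin m)))) → N ∈ cl k₀ (A ∪ X) →
      s.card + d + 1 ≤ m) : Gen k₀ (A ∪ X ∪ {N}) l (d + 1) := by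
  classical
  obtain ⟨s, hs, hs'⟩ := hg
  by_cases hc : s.card + (d + 1) ≤ m
  · refine ⟨s, hc, fun j => cl_mono ?_ (hs' j)⟩
    apply Set.union_subset_union_left
    exact fun y hy => Or.inl (Or.inl hy)
  -- it is enough to find `j ∈ s` which is generated by the others
  have key : (∃ j ∈ s, l j ∈ cl k₀ (A ∪ X ∪ {N} ∪ l '' ((s.erase j : Finset (Fin m)) : Set (Fin m)))) →
      Gen k₀ (A ∪ X ∪ {N}) l (d + 1) := by
    rintro ⟨j, hj, hlj⟩
    refine ⟨s.erase j, ?_, fun i => ?_⟩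
    · have h1 := Finset.card_erase_add_one hj
      omega
    · refine cl_subset ?_ (hs' i)
      rintro y (hy | ⟨i', hi', rfl⟩)
      · exact subset_cl _ (Or.inl (Or.inl (Or.inl hy)))
      · by_cases h : i' = j
        · rw [h]
          exact hlj
        · exact subset_cl _ (Or.inr ⟨i', by
            rw [Finset.mem_coe, Finset.mem_erase]
            exact ⟨h, hi'⟩, rfl⟩)
  apply key
  by_contra hcon
  push Not at hcon
  have hfree : ∀ j ∈ s, l j ∉ cl k₀ (A ∪ X ∪ l '' ((s.erase j : Finset (Fin m)) : Set (Fin m))) := by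
    intro j hj h
    refine hcon j hj (cl_mono ?_ h)
    exact Set.union_subset_union_left _ Set.subset_union_left
  have hN' : N ∈ cl k₀ (A ∪ X ∪ l '' (s : Set (Fin m))) := by
    refine cl_subset ?_ hN
    rintro y (hy | ⟨i, rfl⟩)
    · exact subset_cl _ (Or.inl hy)
    · refine cl_mono ?_ (hs' i)
      exact Set.union_subset_union_left _ Set.subset_union_left
  rcases exch (A ∪ X) l N s hN' with h1 | ⟨j, hj, h1⟩
  · have := hcut s hs' hfree h1
    omega
  · refine hcon j hj (cl_mono ?_ h1)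
    rintro y (rfl | hy | hy)
    · exact Or.inl (Or.inr rfl)
    · exact Or.inl (Or.inl hy)
    · exact Or.inr hy

end

section

variable {k₀ F E Ω : Type u} [Field k₀] [Field F] [Field E] [Field Ω] [Algebra k₀ F] [Algebra F E] [Algebra F Ω]
  [Algebra k₀ Ω] [IsScalarTower k₀ F Ω] {p m : ℕ}

/-- what is known before the copy `t` -/
def Bef (C : Cop F E Ω p) (X : Set E) (u : E) (t : ℕ) : Set Ω :=
  {y | ∃ a : Fin p, (a : ℕ) < t ∧ ((∃ z ∈ X, y = C.φ a z) ∨ y = C.φ a u)}

theorem bef_succ (C : Cop F E Ω p) (X : Set E) (u : E) (a : Fin p) :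
    Bef C X u ((a : ℕ) + 1) = Bef C X u a ∪ C.φ a '' X ∪ {C.φ a u} := by
  ext y
  constructor
  · rintro ⟨b, hb, h⟩
    rcases Nat.lt_succ_iff_lt_or_eq.mp hb with hb | hb
    · exact Or.inl (Or.inl ⟨b, hb, h⟩)
    · have hba : b = a := Fin.ext hb
      subst hba
      rcases h with ⟨z, hz, rfl⟩ | h
      · exact Or.inl (Or.inr ⟨z, hz, rfl⟩)
      · exact Or.inr h
  · rintro ((⟨b, hb, h⟩ | ⟨z, hz, rfl⟩) | h)
    · exact ⟨b, by omega, h⟩
    · exact ⟨a, by omega, Or.inl ⟨z, hz, rfl⟩⟩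
    · exact ⟨a, by omega, Or.inr h⟩

theorem bef_sub (C : Cop F E Ω p) (X : Set E) (u : E) (a : Fin p) (z : Ω) (hz : z ∈ cl k₀ (Bef C X u a)) : z ∈ C.L a := by
  refine cl_sub_acl (k := k₀) (Bef C X u a) (C.L a) (C.acl a) ?_ ?_ z hz
  · intro c
    rw [IsScalarTower.algebraMap_apply k₀ F Ω]
    exact C.cst a _
  · rintro y ⟨b, hb, ⟨z, -, rfl⟩ | rfl⟩
    · exact C.mem a b hb z
    · exact C.mem a b hb u

omit [Algebra k₀ F] [IsScalarTower k₀ F Ω] in
/-- the number of drops, abstract version -/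
theorem drops_of (C : Cop F E Ω p) (X : Set E) (u : E) (l : Fin m → Ω) (D : ℕ)
    (hu : ∀ a, C.φ a u ∈ cl k₀ (C.φ a '' X ∪ Set.range l))
    (hcut : ∀ a : Fin p, (a : ℕ) < D → ∀ s : Finset (Fin m), (∀ j, l j ∈ cl k₀ (Bef C X u a ∪ l '' (s : Set (Fin m)))) →
      (∀ j ∈ s, l j ∉ cl k₀ (Bef C X u a ∪ C.φ a '' X ∪ l '' ((s.erase j : Finset (Fin m)) : Set (Fin m)))) →
      C.φ a u ∈ cl k₀ (Bef C X u a ∪ C.φ a '' X) → s.card + a + 1 ≤ m) :
    Gen k₀ ((⋃ a, C.φ a '' X) ∪ Set.range fun a => C.φ a u) l (min p D) := by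
  have key : ∀ t : ℕ, t ≤ min p D → Gen k₀ (Bef C X u t) l t := by
    intro t
    induction t with
    | zero => exact fun _ => Gen.zero _ _
    | succ t ih =>
      intro ht
      have htp : t < p := lt_of_lt_of_le (Nat.lt_succ_self t) (ht.trans (min_le_left _ _))
      have htD : t < D := lt_of_lt_of_le (Nat.lt_succ_self t) (ht.trans (min_le_right _ _))
      have h1 := step (k₀ := k₀) (Bef C X u t) (C.φ ⟨t, htp⟩ '' X) l (C.φ ⟨t, htp⟩ u) t (ih (by omega))
        (cl_mono (by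
          rintro y (hy | hy)
          · exact Or.inl (Or.inr hy)
          · exact Or.inr hy) (hu ⟨t, htp⟩)) (fun s h1 h2 h3 => hcut ⟨t, htp⟩ htD s h1 h2 h3)
      have h2 := bef_succ C X u ⟨t, htp⟩
      show Gen k₀ (Bef C X u (t + 1)) l (t + 1)
      rw [show t + 1 = ((⟨t, htp⟩ : Fin p) : ℕ) + 1 from rfl, h2]
      exact h1
  refine (key _ le_rfl).mono ?_
  rintro y ⟨a, -, ⟨z, hz, rfl⟩ | rfl⟩
  · exact Or.inl (Set.mem_iUnion.mpr ⟨a, z, hz, rfl⟩)
  · exact Or.inr ⟨a, rfl⟩

/-- the number of drops, from the number of independent coordinates of one point -/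
theorem drops [IsAlgClosed Ω] (C : Cop F E Ω p) (X : Set E) {r e : ℕ} (x : Fin r → Fin m → E) (hX : ∀ σ j, x σ j ∈ X)
    (ℓ : Fin m → F) (u : E) (hu0 : u ≠ 0) (hu : ∏ σ, ∑ j, algebraMap F E (ℓ j) * x σ j = u) (s0 : Fin r)
    (he : e + 1 ≤ Module.finrank F (Submodule.span F (Set.range (x s0)))) :
    Gen k₀ ((⋃ a, C.φ a '' X) ∪ Set.range fun a => C.φ a u) (fun j => algebraMap F Ω (ℓ j)) (min p (e + 1)) := by
  classical
  have hua : ∀ a, ∏ σ, ∑ j, C.φ a (x σ j) * algebraMap F Ω (ℓ j) = C.φ a u := by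
    intro a
    rw [← hu, map_prod]
    refine Finset.prod_congr rfl fun σ _ => ?_
    rw [map_sum]
    refine Finset.sum_congr rfl fun j _ => ?_
    rw [map_mul, AlgHom.commutes, mul_comm]
  -- independent coordinates
  obtain ⟨z, hz⟩ : ∃ z : Fin (e + 1) → Fin m, LinearIndependent F fun i => x s0 (z i) := by
    obtain ⟨t, ht, hspan, hli⟩ := exists_linearIndependent F (Set.range (x s0))
    have hfin : t.Finite := (Set.finite_range (x s0)).subset ht
    have hcard : e + 1 ≤ hfin.toFinset.card := by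
      rw [← hspan] at he
      have := hfin.fintype
      have h1 := finrank_span_set_eq_card hli
      rw [h1] at he
      refine he.trans (le_of_eq ?_)
      rw [Set.toFinset_card, ← Set.Finite.card_toFinset hfin]
    obtain ⟨t', ht', hcard'⟩ := Finset.exists_subset_card_eq hcard
    have hmem : ∀ i : Fin (e + 1), ((t'.equivFinOfCardEq hcard').symm i : E) ∈ t := by
      intro i
      have h1 := ht' ((t'.equivFinOfCardEq hcard').symm i).2
      simpa using h1
    choose z hz using fun i => ht (hmem i)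
    refine ⟨z, ?_⟩
    let f : Fin (e + 1) → t := fun i => ⟨((t'.equivFinOfCardEq hcard').symm i : E), hmem i⟩
    have hf : Function.Injective f := by
      intro i j hij
      have h2 : ((t'.equivFinOfCardEq hcard').symm i : E) = ((t'.equivFinOfCardEq hcard').symm j : E) :=
        congrArg (fun y : t => (y : E)) hij
      exact (t'.equivFinOfCardEq hcard').symm.injective (Subtype.ext h2)
    have h1 : LinearIndependent F (fun i => ((f i : t) : E)) := hli.comp f hf
    have h3 : (fun i => x s0 (z i)) = fun i => ((f i : t) : E) := funext hz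
    rw [h3]
    exact h1
  refine drops_of C X u _ (e + 1) ?_ ?_
  · intro a
    rw [← hua a]
    obtain ⟨F', hF', -⟩ := FIN.aclk61 (k := k₀) (C.φ a '' X ∪ Set.range fun j => algebraMap F Ω (ℓ j))
    rw [← hF']
    refine F'.prod_mem fun σ _ => F'.sum_mem fun j _ => F'.mul_mem ?_ ?_
    · rw [← SetLike.mem_coe, hF']
      exact subset_cl _ (Or.inl ⟨_, hX σ j, rfl⟩)
    · rw [← SetLike.mem_coe, hF']
      exact subset_cl _ (Or.inr ⟨j, rfl⟩)
  · intro a ha s h1 h2 h3
    have h4 := cut_cl (e := e) (Bef C X u a) (C.φ a '' X) (fun j => algebraMap F Ω (ℓ j)) (fun σ j => C.φ a (x σ j))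
      (fun σ j => subset_cl _ (Or.inr ⟨_, hX σ j, rfl⟩)) (C.φ a u) ((map_ne_zero _).mpr hu0) (hua a) h3 s h1 h2 s0 z
      (fun c hc h => C.ld a (fun i => x s0 (z i)) hz c (fun i => bef_sub C X u a _ (hc i)) h)
    omega

end

end Pool.Agent.PC
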