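import Pool.Agent.Helper61.PC.Cut2
import Pool.Agent.Helper61.PC.Step

/-!
# Project PC: the number of drops, refined form

For a form `ℓ` and points `x σ` the number of drops is `min p (m + 1 - dim Q)`, where `Q` is the intersection of the spaces spanned
by `ℓ` and the relations of the coordinates of `x σ`.
-/

set_option autoImplicit false

namespace Pool.Agent.PC

open Pool.Agent.GS MvPolynomial

universe u

/-- coordinates with respect to a basis of the span -/
theorem exists_coords {F E : Type*} [Field F] [AddCommGroup E] [Module F E] {m : ℕ} (x : Fin m → E) :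
    ∃ (κ : ℕ) (z : Fin κ → E) (A : Fin m → Fin κ → F), LinearIndependent F z ∧ ∀ j, x j = ∑ k, A j k • z k := by
  have hfin : FiniteDimensional F (Submodule.span F (Set.range x)) := FiniteDimensional.span_of_finite F (Set.finite_range x)
  let B := Module.finBasis F (Submodule.span F (Set.range x))
  refine ⟨_, fun k => (B k : E), fun j => B.repr ⟨x j, Submodule.subset_span ⟨j, rfl⟩⟩, ?_, fun j => ?_⟩
  · exact B.linearIndependent.map' (Submodule.span F (Set.range x)).subtype (Submodule.ker_subtype _)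
  · have h1 := congrArg (Submodule.span F (Set.range x)).subtype (B.sum_repr ⟨x j, Submodule.subset_span ⟨j, rfl⟩⟩)
    rw [map_sum] at h1
    refine h1.symm.trans (Finset.sum_congr rfl fun k _ => ?_)
    rw [map_smul]
    rfl

/-- functionals annihilate relations with coefficients in `L a` -/
theorem Cop.functional {F E Ω : Type u} [Field F] [Field E] [Field Ω] [Algebra F E] [Algebra F Ω] {p m : ℕ} (C : Cop F E Ω p)
    (a : Fin p) (x : Fin m → E) (b : Fin m → Ω) (hb : ∀ j, b j ∈ C.L a) (h : ∑ j, b j * C.φ a (x j) = 0) (θ : E →ₗ[F] F) :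
    ∑ j, b j * algebraMap F Ω (θ (x j)) = 0 := by
  obtain ⟨κ, z, A, hz, hA⟩ := exists_coords (F := F) x
  have h1 : ∑ k, (∑ j, b j * algebraMap F Ω (A j k)) * C.φ a (z k) = 0 := by
    rw [← h]
    simp only [Finset.sum_mul]
    rw [Finset.sum_comm]
    refine Finset.sum_congr rfl fun j _ => ?_
    conv_rhs => rw [hA j, map_sum, Finset.mul_sum]
    refine Finset.sum_congr rfl fun k _ => ?_
    rw [map_smul, Algebra.smul_def, mul_assoc]
  have h2 := C.ld a z hz (fun k => ∑ j, b j * algebraMap F Ω (A j k)) (fun k => (C.L a).sum_mem fun j _ =>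
    (C.L a).mul_mem (hb j) (C.cst a _)) h1
  have h3 : ∀ j, algebraMap F Ω (θ (x j)) = ∑ k, algebraMap F Ω (A j k) * algebraMap F Ω (θ (z k)) := by
    intro j
    rw [hA j, map_sum, map_sum]
    exact Finset.sum_congr rfl fun k _ => by rw [map_smul, smul_eq_mul, map_mul]
  simp only [h3, Finset.mul_sum]
  rw [Finset.sum_comm]
  refine Finset.sum_eq_zero fun k _ => ?_
  have h4 := h2 k
  simp only [← mul_assoc]
  rw [← Finset.sum_mul, h4, zero_mul]

/-- `l` satisfies the linear equations of `Zer` with coefficients in `Ω` -/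
theorem zer_lin {H K₁ Ω : Type u} [Field H] [Field K₁] [Field Ω] [Algebra H K₁] [Algebra K₁ Ω] [Algebra H Ω]
    [IsAlgClosed H] [IsScalarTower H K₁ Ω] {m τ : ℕ} (l : Fin m → Ω) (b : Fin τ → Fin m)
    (hb : AlgebraicIndependent K₁ fun i => l (b i)) (hl : ∀ j, l j ∈ cl H (Set.range fun i => l (b i)))
    (e : Fin m → Ω) (he : ∀ c ∈ Zer H K₁ l, ∑ j, e j * algebraMap H Ω (c j) = 0) : ∑ j, e j * l j = 0 := by
  obtain ⟨κ, z, A, hz, hA⟩ := exists_coords (F := H) e
  have hkill : ∀ k, ∑ j, algebraMap H Ω (A j k) * l j = 0 := by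
    intro k
    by_contra h0
    have h1 : aeval l (∑ j, MvPolynomial.C (A j k) * X j : MvPolynomial (Fin m) H) ≠ 0 := by
      rw [map_sum]
      simp only [map_mul, aeval_C, aeval_X]
      exact h0
    obtain ⟨c, hc, hc2⟩ := rn (K₁ := K₁) l b hb hl _ h1
    apply hc2
    have h2 := he c hc
    have h3 : ∑ k, (∑ j, A j k * c j) • z k = 0 := by
      rw [← h2]
      simp only [Finset.sum_smul]
      rw [Finset.sum_comm]
      refine Finset.sum_congr rfl fun j _ => ?_
      conv_rhs => rw [hA j, Finset.sum_mul]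
      refine Finset.sum_congr rfl fun k _ => ?_
      rw [Algebra.smul_def, Algebra.smul_def, map_mul]
      ring
    have h4 := Fintype.linearIndependent_iff.mp hz _ h3 k
    rw [map_sum]
    simp only [map_mul, aeval_C, aeval_X]
    exact h4
  have h5 : ∑ j, e j * l j = ∑ k, z k * ∑ j, algebraMap H Ω (A j k) * l j := by
    simp only [Finset.mul_sum]
    rw [Finset.sum_comm]
    refine Finset.sum_congr rfl fun j _ => ?_
    conv_lhs => rw [hA j, Finset.sum_mul]
    refine Finset.sum_congr rfl fun k _ => ?_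
    rw [Algebra.smul_def]
    ring
  rw [h5]
  exact Finset.sum_eq_zero fun k _ => by rw [hkill k, mul_zero]

/-- a subspace over `H` which is annihilated by the functionals of a subspace over `F` -/
theorem dim_le_of_ann {F H Ω : Type u} [Field F] [Field H] [Field Ω] [Algebra F Ω] [Algebra H Ω] {m : ℕ}
    (Q : Submodule F (Fin m → F)) (Λ : Submodule H (Fin m → H))
    (h : ∀ g ∈ Q.dualAnnihilator, ∀ c ∈ Λ, ∑ j, algebraMap F Ω (g (Pi.single j 1)) * algebraMap H Ω (c j) = 0) :
    Module.finrank H Λ ≤ Module.finrank F Q := by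
  classical
  let fam : Fin m → Module.Dual F Q := fun j => (LinearMap.proj j).comp Q.subtype
  obtain ⟨κ, J, hJ, hspan, hli⟩ := exists_linearIndependent' F fam
  have : Finite κ := Finite.of_injective J hJ
  have : Fintype κ := Fintype.ofFinite κ
  have hcard : Fintype.card κ ≤ Module.finrank F Q := by
    rw [← Subspace.dual_finrank_eq]
    exact hli.fintype_card_le_finrank
  let R : Λ →ₗ[H] (κ → H) := (LinearMap.pi fun k => LinearMap.proj (J k)).comp Λ.subtype
  have hR : Function.Injective R := by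
    rw [injective_iff_map_eq_zero]
    rintro ⟨c, hc⟩ hc0
    apply Subtype.ext
    funext i
    have h0 : ∀ k, c (J k) = 0 := fun k => congrFun hc0 k
    have h1 : fam i ∈ Submodule.span F (Set.range (fam ∘ J)) := by
      rw [hspan]
      exact Submodule.subset_span ⟨i, rfl⟩
    rw [Submodule.mem_span_range_iff_exists_fun] at h1
    obtain ⟨a, ha⟩ := h1
    let g : Module.Dual F (Fin m → F) := LinearMap.proj i - ∑ k, a k • LinearMap.proj (J k)
    have hg : g ∈ Q.dualAnnihilator := by
      rw [Submodule.mem_dualAnnihilator]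
      intro y hy
      have h2 := congrArg (fun f : Module.Dual F Q => f ⟨y, hy⟩) ha
      simp only [LinearMap.coe_sum, Finset.sum_apply, LinearMap.smul_apply] at h2
      show (LinearMap.proj i - ∑ k, a k • LinearMap.proj (J k) : Module.Dual F (Fin m → F)) y = 0
      rw [LinearMap.sub_apply, sub_eq_zero, LinearMap.sum_apply]
      exact h2.symm
    have h3 := h g hg c hc
    have h4 : ∀ j, g (Pi.single j 1) = (Pi.single j 1 : Fin m → F) i - ∑ k, a k * (Pi.single j 1 : Fin m → F) (J k) := by
      intro j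
      show (LinearMap.proj i - ∑ k, a k • LinearMap.proj (J k) : Module.Dual F (Fin m → F)) _ = _
      rw [LinearMap.sub_apply, LinearMap.sum_apply]
      rfl
    simp only [h4, map_sub, sub_mul, Finset.sum_sub_distrib, map_sum, map_mul, Finset.sum_mul] at h3
    rw [Finset.sum_comm] at h3
    have h5 : ∀ i' : Fin m, ∑ j, algebraMap F Ω ((Pi.single j 1 : Fin m → F) i') * algebraMap H Ω (c j) = algebraMap H Ω (c i') := by
      intro i'
      rw [Finset.sum_eq_single i']
      · rw [Pi.single_eq_same, map_one, one_mul]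
      · intro j _ hj
        rw [Pi.single_eq_of_ne hj.symm, map_zero, zero_mul]
      · intro hi'
        exact absurd (Finset.mem_univ _) hi'
    rw [h5] at h3
    have h6 : ∑ k, ∑ j, algebraMap F Ω (a k) * algebraMap F Ω ((Pi.single j 1 : Fin m → F) (J k)) * algebraMap H Ω (c j) = 0 := by
      refine Finset.sum_eq_zero fun k _ => ?_
      simp only [mul_assoc]
      rw [← Finset.mul_sum, h5, h0 k, map_zero, mul_zero]
    rw [h6, sub_zero] at h3
    exact (map_eq_zero _).mp h3
  have h1 := LinearMap.finrank_le_finrank_of_injective hR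
  rw [Module.finrank_fintype_fun_eq_card] at h1
  exact h1.trans hcard

/-- the space of the refined number of drops -/
noncomputable def QQ {F E : Type u} [Field F] [Field E] [Algebra F E] {m r : ℕ} (ℓ : Fin m → F) (x : Fin r → Fin m → E) :
    Submodule F (Fin m → F) := ⨅ σ, LinearMap.ker (Fintype.linearCombination F (x σ)) ⊔ Submodule.span F {ℓ}

/-- the cutting lemma in the language of closures, refined form -/
theorem cut_cl2 {k₀ F E Ω : Type u} [Field k₀] [Field F] [Field E] [Field Ω] [IsAlgClosed Ω] [Algebra F E] [Algebra F Ω]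
    [Algebra k₀ Ω] {p m r : ℕ} (C : Cop F E Ω p) (a : Fin p) (A X : Set Ω) (hA : ∀ z ∈ cl k₀ A, z ∈ C.L a)
    (ℓ : Fin m → F) (x : Fin r → Fin m → E) (hx : ∀ σ j, C.φ a (x σ j) ∈ cl k₀ (A ∪ X)) (u : E) (hu0 : u ≠ 0)
    (hu : ∏ σ, ∑ j, algebraMap F E (ℓ j) * x σ j = u) (hNA : C.φ a u ∈ cl k₀ (A ∪ X)) (s : Finset (Fin m))
    (hs : ∀ j, algebraMap F Ω (ℓ j) ∈ cl k₀ (A ∪ (fun j => algebraMap F Ω (ℓ j)) '' (s : Set (Fin m))))
    (hind : ∀ j ∈ s, algebraMap F Ω (ℓ j) ∉
      cl k₀ (A ∪ X ∪ (fun j => algebraMap F Ω (ℓ j)) '' ((s.erase j : Finset (Fin m)) : Set (Fin m)))) (s0 : Fin r) :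
    s.card + 1 ≤ Module.finrank F (QQ ℓ x) := by
  classical
  set l : Fin m → Ω := fun j => algebraMap F Ω (ℓ j) with hldef
  obtain ⟨H, hH, hHacl⟩ := FIN.aclk61 (k := k₀) A
  obtain ⟨K₁, hK, hKacl⟩ := FIN.aclk61 (k := k₀) (A ∪ X)
  have hmH : ∀ y, y ∈ H ↔ y ∈ cl k₀ A := fun y => by rw [← SetLike.mem_coe, hH]
  have hmK : ∀ y, y ∈ K₁ ↔ y ∈ cl k₀ (A ∪ X) := fun y => by rw [← SetLike.mem_coe, hK]
  have hle : H ≤ K₁ := by
    intro y hy
    rw [hmK]
    rw [hmH] at hy
    exact cl_mono Set.subset_union_left hy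
  let _ : Algebra H K₁ := (Subfield.inclusion hle).toAlgebra
  have htower : IsScalarTower H K₁ Ω := IsScalarTower.of_algebraMap_eq fun _ => rfl
  have hac : IsAlgClosed H := acl_isAlgClosed H hHacl
  let b : Fin s.card → Fin m := fun i => (s.equivFin.symm i : Fin m)
  have hbs : ∀ i, b i ∈ s := fun i => (s.equivFin.symm i).2
  have hbinj : Function.Injective b := Subtype.val_injective.comp s.equivFin.symm.injective
  have hb : AlgebraicIndependent K₁ fun i => l (b i) := by
    have h1 : AlgebraicIndependent K₁ fun i : ULift.{u} (Fin s.card) => l (b i.down) := by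
      refine ai_of_not_mem (A ∪ X) K₁ hK _ fun i hi => hind (b i.down) (hbs _) (cl_mono ?_ hi)
      apply Set.union_subset_union_right
      rintro _ ⟨j, hj, rfl⟩
      refine ⟨b j.down, ?_, rfl⟩
      rw [Finset.mem_coe, Finset.mem_erase]
      refine ⟨fun h => hj ?_, hbs _⟩
      exact ULift.ext _ _ (hbinj h)
    exact h1.comp (fun i => ULift.up i) ULift.up_injective
  have hl : ∀ j, l j ∈ cl H (Set.range fun i => l (b i)) := by
    intro j
    obtain ⟨F', hF', hacl'⟩ := FIN.aclk61 (k := H) (Set.range fun i => l (b i))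
    have hm' : ∀ y, y ∈ F' ↔ y ∈ cl H (Set.range fun i => l (b i)) := fun y => by rw [← SetLike.mem_coe, hF']
    rw [← hm']
    refine cl_sub_acl (k := k₀) (A ∪ l '' (s : Set (Fin m))) F' hacl' ?_ ?_ _ (hs j)
    · intro c
      rw [hm']
      have h1 : algebraMap k₀ Ω c ∈ H := by
        rw [hmH]
        exact cl_cst _ _
      exact cl_cst (k := H) _ ⟨_, h1⟩
    · rintro y (hy | ⟨i, hi, rfl⟩)
      · rw [hm']
        have h1 : y ∈ H := by
          rw [hmH]
          exact subset_cl _ hy
        exact cl_cst (k := H) _ ⟨_, h1⟩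
      · rw [hm']
        refine subset_cl _ ⟨s.equivFin ⟨i, hi⟩, ?_⟩
        show l (s.equivFin.symm (s.equivFin ⟨i, hi⟩) : Fin m) = l i
        rw [Equiv.symm_apply_apply]
  let x' : Fin r → Fin m → K₁ := fun σ j => ⟨C.φ a (x σ j), (hmK _).mpr (hx σ j)⟩
  let N : K₁ := ⟨C.φ a u, (hmK _).mpr hNA⟩
  have hN0 : N ≠ 0 := fun h => (map_ne_zero (C.φ a)).mpr hu0 (congrArg Subtype.val h)
  have hN : ∏ σ, ∑ j, algebraMap K₁ Ω (x' σ j) * l j = algebraMap K₁ Ω N := by
    show _ = C.φ a u
    rw [← hu, map_prod]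
    refine Finset.prod_congr rfl fun σ _ => ?_
    rw [map_sum]
    refine Finset.sum_congr rfl fun j _ => ?_
    rw [map_mul, AlgHom.commutes, mul_comm]
    rfl
  obtain ⟨l0, hl0, -⟩ := rn (K₁ := K₁) l b hb hl 1 (by rw [map_one]; exact one_ne_zero)
  have hne0 : ∀ ρ, ev H (x' ρ) l0 ≠ 0 := by
    intro ρ
    have h1 := zer_prod hl0 x' N hN
    rw [← h1] at hN0
    exact Finset.prod_ne_zero_iff.mp hN0 ρ (Finset.mem_univ ρ)
  have hevΩ : ∀ ρ (c : Fin m → H), algebraMap K₁ Ω (ev H (x' ρ) c) = ∑ j, algebraMap H Ω (c j) * C.φ a (x ρ j) := by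
    intro ρ c
    rw [ev_apply, map_sum]
    exact Finset.sum_congr rfl fun j _ => by rw [map_mul]; rfl
  -- the functionals of one point
  have hone : ∀ σ, ∀ g ∈ (LinearMap.ker (Fintype.linearCombination F (x σ)) ⊔ Submodule.span F {ℓ}).dualAnnihilator,
      ∀ c ∈ Submodule.span H (Zer H K₁ l), ∑ j, algebraMap F Ω (g (Pi.single j 1)) * algebraMap H Ω (c j) = 0 := by
    intro σ g hg c hc
    have hg1 : g ∈ (LinearMap.ker (Fintype.linearCombination F (x σ))).dualAnnihilator :=
      Submodule.dualAnnihilator_anti le_sup_left hg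
    rw [← LinearMap.range_dualMap_eq_dualAnnihilator_ker] at hg1
    obtain ⟨θ, hθ⟩ := hg1
    have hθ' : ∀ j, g (Pi.single j 1) = θ (x σ j) := by
      intro j
      rw [← hθ]
      show θ (Fintype.linearCombination F (x σ) (Pi.single j 1)) = _
      rw [Fintype.linearCombination_apply_single, one_smul]
    have hgl : ∑ j, algebraMap F Ω (g (Pi.single j 1)) * l j = 0 := by
      have h1 : g ℓ = 0 := (Submodule.mem_dualAnnihilator g).mp hg ℓ
        (Submodule.mem_sup_right (Submodule.mem_span_singleton_self ℓ))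
      have h2 : ℓ = ∑ j, ℓ j • (Pi.single j (1 : F) : Fin m → F) := by
        funext i
        simp [Finset.sum_apply, Pi.single_apply]
      have h3 : g ℓ = ∑ j, ℓ j * g (Pi.single j 1) := by
        conv_lhs => rw [h2, map_sum]
        exact Finset.sum_congr rfl fun j _ => by rw [map_smul, smul_eq_mul]
      rw [h1] at h3
      have h4 := congrArg (algebraMap F Ω) h3
      rw [map_zero, map_sum] at h4
      rw [h4]
      exact Finset.sum_congr rfl fun j _ => by rw [map_mul, mul_comm]
    -- the value of `g` is proportional to the value at the point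
    have hprop : ∀ c ∈ Submodule.span H (Zer H K₁ l), ∃ t : H,
        ∑ j, algebraMap F Ω (g (Pi.single j 1)) * algebraMap H Ω (c j) =
          algebraMap H Ω t * ∑ j, algebraMap F Ω (g (Pi.single j 1)) * algebraMap H Ω (l0 j) ∧
        ∑ j, algebraMap H Ω (c j) * C.φ a (x σ j) = algebraMap H Ω t * ∑ j, algebraMap H Ω (l0 j) * C.φ a (x σ j) := by
      intro c hc
      obtain ⟨t, ht⟩ := span_prop l b hb hl x' N hN0 hN hl0 σ c hc
      refine ⟨t, ?_, ?_⟩
      · have h1 : ∑ j, algebraMap H Ω (c j - t * l0 j) * C.φ a (x σ j) = 0 := by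
          have h2 := congrArg (algebraMap K₁ Ω) ht
          rw [Algebra.smul_def, map_mul, hevΩ, hevΩ] at h2
          simp only [map_sub, map_mul, sub_mul, Finset.sum_sub_distrib]
          rw [h2, sub_eq_zero, Finset.mul_sum]
          exact Finset.sum_congr rfl fun j _ => by rw [mul_assoc]; rfl
        have h3 := C.functional a (x σ) (fun j => algebraMap H Ω (c j - t * l0 j))
          (fun j => hA _ ((hmH _).mp (c j - t * l0 j).2)) h1 θ
        simp only [map_sub, map_mul, sub_mul, Finset.sum_sub_distrib] at h3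
        rw [sub_eq_zero] at h3
        simp only [hθ']
        rw [Finset.mul_sum]
        calc ∑ j, algebraMap F Ω (θ (x σ j)) * algebraMap H Ω (c j) = ∑ j, algebraMap H Ω (c j) * algebraMap F Ω (θ (x σ j)) :=
              Finset.sum_congr rfl fun j _ => mul_comm _ _
          _ = _ := h3
          _ = _ := Finset.sum_congr rfl fun j _ => by ring
      · have h2 := congrArg (algebraMap K₁ Ω) ht
        rw [Algebra.smul_def, map_mul, hevΩ, hevΩ] at h2
        exact h2
    set gl0 : Ω := ∑ j, algebraMap F Ω (g (Pi.single j 1)) * algebraMap H Ω (l0 j) with hgl0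
    set xl0 : Ω := ∑ j, algebraMap H Ω (l0 j) * C.φ a (x σ j) with hxl0
    have hlin := zer_lin l b hb hl (fun j => algebraMap F Ω (g (Pi.single j 1)) * xl0 - C.φ a (x σ j) * gl0) (by
      intro c hc
      obtain ⟨t, h1, h2⟩ := hprop c (Submodule.subset_span hc)
      simp only [sub_mul, Finset.sum_sub_distrib]
      have h3 : ∑ j, algebraMap F Ω (g (Pi.single j 1)) * xl0 * algebraMap H Ω (c j) =
          xl0 * ∑ j, algebraMap F Ω (g (Pi.single j 1)) * algebraMap H Ω (c j) := by
        rw [Finset.mul_sum]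
        exact Finset.sum_congr rfl fun j _ => by ring
      have h4 : ∑ j, C.φ a (x σ j) * gl0 * algebraMap H Ω (c j) = gl0 * ∑ j, algebraMap H Ω (c j) * C.φ a (x σ j) := by
        rw [Finset.mul_sum]
        exact Finset.sum_congr rfl fun j _ => by ring
      rw [h3, h4, h1, h2]
      ring)
    have h5 : gl0 = 0 := by
      simp only [sub_mul, Finset.sum_sub_distrib] at hlin
      have h3 : ∑ j, algebraMap F Ω (g (Pi.single j 1)) * xl0 * l j = xl0 * ∑ j, algebraMap F Ω (g (Pi.single j 1)) * l j := by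
        rw [Finset.mul_sum]
        exact Finset.sum_congr rfl fun j _ => by ring
      have h4 : ∑ j, C.φ a (x σ j) * gl0 * l j = gl0 * ∑ j, C.φ a (x σ j) * l j := by
        rw [Finset.mul_sum]
        exact Finset.sum_congr rfl fun j _ => by ring
      rw [h3, h4, hgl, mul_zero, zero_sub, neg_eq_zero] at hlin
      refine (mul_eq_zero.mp hlin).resolve_right ?_
      have h6 : ∏ σ, ∑ j, C.φ a (x σ j) * l j ≠ 0 := by
        have h7 : ∏ σ, ∑ j, C.φ a (x σ j) * l j = algebraMap K₁ Ω N := hN
        rw [h7]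
        exact (map_ne_zero _).mpr hN0
      exact Finset.prod_ne_zero_iff.mp h6 σ (Finset.mem_univ σ)
    obtain ⟨t, h1, -⟩ := hprop c hc
    rw [h1, h5, mul_zero]
  have hdim : Module.finrank H (Submodule.span H (Zer H K₁ l)) ≤ Module.finrank F (QQ ℓ x) := by
    refine dim_le_of_ann (Ω := Ω) (QQ ℓ x) _ fun g hg => ?_
    unfold QQ at hg
    rw [Subspace.dualAnnihilator_iInf_eq] at hg
    induction hg using Submodule.iSup_induction' with
    | mem σ g hg => exact hone σ g hg
    | zero =>
      intro c _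
      exact Finset.sum_eq_zero fun j _ => by rw [LinearMap.zero_apply, map_zero, zero_mul]
    | add g g' _ _ h1 h2 =>
      intro c hc
      simp only [LinearMap.add_apply, map_add, add_mul, Finset.sum_add_distrib]
      rw [h1 c hc, h2 c hc, add_zero]
  have hle' : Module.finrank H (Submodule.span H (Zer H K₁ l)) ≤ m := by
    have h1 := Submodule.finrank_le (Submodule.span H (Zer H K₁ l))
    rwa [Module.finrank_fin_fun] at h1
  have h1 := cut_dim (K₁ := K₁) l b hb hl x' N hN0 hN s0
    (m - Module.finrank H (Submodule.span H (Zer H K₁ l))) (by omega)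
  omega

/-- the number of drops, refined form -/
theorem drops2 {k₀ F E Ω : Type u} [Field k₀] [Field F] [Field E] [Field Ω] [Algebra k₀ F] [Algebra F E] [Algebra F Ω]
    [Algebra k₀ Ω] [IsScalarTower k₀ F Ω] [IsAlgClosed Ω] {p m : ℕ} (C : Cop F E Ω p) (X : Set E) {r : ℕ}
    (x : Fin r → Fin m → E) (hX : ∀ σ j, x σ j ∈ X) (ℓ : Fin m → F) (u : E) (hu0 : u ≠ 0)
    (hu : ∏ σ, ∑ j, algebraMap F E (ℓ j) * x σ j = u) (s0 : Fin r) :
    Gen k₀ ((⋃ a, C.φ a '' X) ∪ Set.range fun a => C.φ a u) (fun j => algebraMap F Ω (ℓ j))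
      (min p (m + 1 - Module.finrank F (QQ ℓ x))) := by
  classical
  have hua : ∀ a, ∏ σ, ∑ j, C.φ a (x σ j) * algebraMap F Ω (ℓ j) = C.φ a u := by
    intro a
    rw [← hu, map_prod]
    refine Finset.prod_congr rfl fun σ _ => ?_
    rw [map_sum]
    refine Finset.sum_congr rfl fun j _ => ?_
    rw [map_mul, AlgHom.commutes, mul_comm]
  refine drops_of C X u _ _ ?_ ?_
  · intro a
    rw [← hua a]
    obtain ⟨F', hF', -⟩ := FIN.aclk61 (k := k₀) (C.φ a '' X ∪ Set.range fun j => algebraMap F Ω (ℓ j))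
    rw [← hF']
    refine F'.prod_mem fun σ _ => F'.sum_mem fun j _ => F'.mul_mem ?_ ?_
    · rw [← SetLike.mem_coe, hF']
      exact subset_cl _ (Or.inl ⟨_, hX σ j, rfl⟩)
    · rw [← SetLike.mem_coe, hF']
      exact subset_cl _ (Or.inr ⟨j, rfl⟩)
  · intro a ha s h1 h2 h3
    have h4 := cut_cl2 C a (Bef C X u a) (C.φ a '' X) (fun z hz => bef_sub C X u a z hz) ℓ x
      (fun σ j => subset_cl _ (Or.inr ⟨_, hX σ j, rfl⟩)) u hu0 hu h3 s h1 h2 s0
    omega

end Pool.Agent.PC
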