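import Pool.Agent.Helper77.GS.Bottom

/-!
# Project PC: independent copies of a field extension (definition)
-/

set_option autoImplicit false

namespace Pool.Agent.PC

open Pool.Agent.GS MvPolynomial

universe u

/-- `p` independent copies over `F` of the extension `E` of `F`, in a field `Ω`: the fields `L a` contain the copies `b < a` and are
algebraically closed in `Ω`, and elements of `E` which are linearly independent over `F` stay independent over `L a` in the copy `a`. -/
structure Cop (F E Ω : Type u) [Field F] [Field E] [Field Ω] [Algebra F E] [Algebra F Ω] (p : ℕ) where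
  φ : Fin p → E →ₐ[F] Ω
  L : Fin p → Subfield Ω
  cst : ∀ a (c : F), algebraMap F Ω c ∈ L a
  mem : ∀ a b, b < a → ∀ z, φ b z ∈ L a
  acl : ∀ a (P : Polynomial Ω), P ≠ 0 → (∀ i, P.coeff i ∈ L a) → ∀ z, P.eval z = 0 → z ∈ L a
  ld : ∀ a {κ : ℕ} (z : Fin κ → E), LinearIndependent F z → ∀ c : Fin κ → Ω, (∀ j, c j ∈ L a) →
    ∑ j, c j * φ a (z j) = 0 → ∀ j, c j = 0

end Pool.Agent.PC
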