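import Pool.Agent.Helper61.PC.RN

/-!
# Project PC: the cutting lemma

If `H(l)` and `K₁` are algebraically independent over the algebraically closed field `H` and the product of the values of the linear
form `l` at points `x σ` over `K₁` lies in `K₁`, then `l` has small transcendence degree over `H`.
-/

set_option autoImplicit false

namespace Pool.Agent.PC

open Pool.Agent.GS MvPolynomial

universe u

section

variable {H K₁ Ω : Type u} [Field H] [Field K₁] [Field Ω] [Algebra H K₁] [Algebra K₁ Ω] [Algebra H Ω]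

/-- values of linear forms over `H` -/
noncomputable def ev (H : Type u) {K₁ : Type u} [Field H] [Field K₁] [Algebra H K₁] {m : ℕ} (x : Fin m → K₁) :
    (Fin m → H) →ₗ[H] K₁ := Fintype.linearCombination H x

theorem ev_apply {m : ℕ} (x : Fin m → K₁) (c : Fin m → H) : ev H x c = ∑ j, algebraMap H K₁ (c j) * x j := by
  unfold ev
  rw [Fintype.linearCombination_apply]
  exact Finset.sum_congr rfl fun j _ => Algebra.smul_def _ _

/-- the linear polynomial of a functional -/
noncomputable def pol {m : ℕ} (G : (Fin m → H) →ₗ[H] H) : MvPolynomial (Fin m) H :=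
  ∑ j, C (G (Pi.single j 1)) * X j

theorem aeval_pol {m : ℕ} (G : (Fin m → H) →ₗ[H] H) (c : Fin m → H) : aeval c (pol G) = G c := by
  unfold pol
  rw [map_sum]
  have h1 : c = ∑ j, c j • (Pi.single j (1 : H) : Fin m → H) := by
    funext i
    simp [Finset.sum_apply, Pi.single_apply]
  conv_rhs => rw [h1, map_sum]
  refine Finset.sum_congr rfl fun j _ => ?_
  rw [map_mul, aeval_C, aeval_X, map_smul, smul_eq_mul, mul_comm]
  rfl

theorem aeval_pol' {m : ℕ} (G : (Fin m → H) →ₗ[H] H) (l : Fin m → Ω) :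
    aeval l (pol G) = ev H l fun j => G (Pi.single j 1) := by
  unfold pol
  rw [map_sum, ev_apply]
  refine Finset.sum_congr rfl fun j _ => ?_
  rw [map_mul, aeval_C, aeval_X]

theorem zer_of_aeval [IsScalarTower H K₁ Ω] {m : ℕ} {l : Fin m → Ω} {l' : Fin m → H} (h : l' ∈ Zer H K₁ l) (g : MvPolynomial (Fin m) H)
    (hg : aeval l g = 0) : aeval l' g = 0 := by
  have h1 := h (map (algebraMap H K₁) g) (by rw [aeval_map_algebraMap, hg])
  rw [aeval_map_algebraMap] at h1
  have h2 : aeval (fun j => algebraMap H K₁ (l' j)) g = algebraMap H K₁ (aeval l' g) := aeval_algebraMap_apply _ _ _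
  rw [h2] at h1
  exact (map_eq_zero (algebraMap H K₁)).mp h1

omit [Algebra H Ω] in
theorem zer_prod {m r : ℕ} {l : Fin m → Ω} {l' : Fin m → H} (h : l' ∈ Zer H K₁ l) (x : Fin r → Fin m → K₁) (N : K₁)
    (hN : ∏ σ, ∑ j, algebraMap K₁ Ω (x σ j) * l j = algebraMap K₁ Ω N) : ∏ σ, ev H (x σ) l' = N := by
  have h1 := h ((∏ σ, ∑ j, C (x σ j) * X j) - C N) (by
    rw [map_sub, map_prod, aeval_C, sub_eq_zero, ← hN]
    refine Finset.prod_congr rfl fun σ _ => ?_
    rw [map_sum]
    refine Finset.sum_congr rfl fun j _ => ?_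
    rw [map_mul, aeval_C, aeval_X])
  rw [map_sub, map_prod, aeval_C, sub_eq_zero] at h1
  rw [Algebra.algebraMap_self, RingHom.id_apply] at h1
  rw [← h1]
  refine Finset.prod_congr rfl fun σ _ => ?_
  rw [map_sum, ev_apply]
  refine Finset.sum_congr rfl fun j _ => ?_
  rw [map_mul, aeval_C, aeval_X, mul_comm]
  rfl

/-- an element which lies in all valuation rings over `H` is a constant -/
theorem cst_of_all [IsAlgClosed H] (z : K₁)
    (h : ∀ V : ValuationSubring K₁, (∀ c : H, algebraMap H K₁ c ∈ V) → z ∈ V) : Cst H z := by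
  have h1 : z ∈ (⨅ V : {V : ValuationSubring K₁ // Set.range (algebraMap H K₁) ⊆ V.toSubring}, V.1.toSubring) := by
    rw [Subring.mem_iInf]
    rintro ⟨V, hV⟩
    exact h V fun c => hV ⟨c, rfl⟩
  rw [iInf_valuationSubring_superset] at h1
  have h2 : IsIntegral (Subring.closure (Set.range (algebraMap H K₁))) z := h1
  have h3 : IsIntegral H z := by
    obtain ⟨p, hp, hp2⟩ := h2
    have hr : Subring.closure (Set.range (algebraMap H K₁)) ≤ (algebraMap H K₁).range := by
      rw [Subring.closure_le]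
      rintro _ ⟨c, rfl⟩
      exact ⟨c, rfl⟩
    have hpc : ∀ i, ∃ c : H, algebraMap H K₁ c = p.coeff i := by
      intro i
      obtain ⟨c, hc⟩ := hr (p.coeff i).2
      exact ⟨c, hc⟩
    have hl : p.map (Subring.closure (Set.range (algebraMap H K₁))).subtype ∈ Polynomial.lifts (algebraMap H K₁) := by
      rw [Polynomial.lifts_iff_coeff_lifts]
      intro i
      rw [Polynomial.coeff_map]
      exact hpc i
    obtain ⟨q, hq, -, hqm⟩ := Polynomial.lifts_and_natDegree_eq_and_monic hl (hp.map _)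
    refine ⟨q, hqm, ?_⟩
    rw [← Polynomial.eval_map, hq, Polynomial.eval_map]
    exact hp2
  exact cst_of_isAlgebraic (F := H) z h3.isAlgebraic

/-- elements which are smaller than `z` at a point -/
def small (V : ValuationSubring K₁) (hV : ∀ c : H, algebraMap H K₁ c ∈ V) {m : ℕ} (x : Fin m → K₁) (z : K₁) (hz : z ≠ 0) :
    Submodule H (Fin m → H) where
  carrier := {c | V.valuation (ev H x c) < V.valuation z}
  add_mem' {c d} hc hd := by
    show V.valuation (ev H x (c + d)) < _
    rw [map_add]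
    exact (V.valuation.map_add _ _).trans_lt (max_lt hc hd)
  zero_mem' := by
    show V.valuation (ev H x 0) < _
    rw [map_zero, map_zero]
    exact zero_lt_iff.mpr ((Valuation.ne_zero_iff _).mpr hz)
  smul_mem' a c hc := by
    show V.valuation (ev H x (a • c)) < _
    rw [map_smul, Algebra.smul_def, map_mul]
    exact (mul_le_of_le_one_left' ((V.valuation_le_one_iff _).mpr (hV a))).trans_lt hc

theorem val_le [IsAlgClosed H] [IsScalarTower H K₁ Ω] {m τ r : ℕ} (l : Fin m → Ω) (b : Fin τ → Fin m)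
    (hb : AlgebraicIndependent K₁ fun i => l (b i)) (hl : ∀ j, l j ∈ cl H (Set.range fun i => l (b i)))
    (x : Fin r → Fin m → K₁) (N : K₁) (hN0 : N ≠ 0)
    (hN : ∏ σ, ∑ j, algebraMap K₁ Ω (x σ j) * l j = algebraMap K₁ Ω N)
    (V : ValuationSubring K₁) (hV : ∀ c : H, algebraMap H K₁ c ∈ V)
    {l' l'' : Fin m → H} (h' : l' ∈ Zer H K₁ l) (h'' : l'' ∈ Zer H K₁ l) (σ : Fin r) :
    V.valuation (ev H (x σ) l'') ≤ V.valuation (ev H (x σ) l') := by
  classical
  by_contra hlt
  rw [not_le] at hlt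
  have hne : ∀ {c : Fin m → H}, c ∈ Zer H K₁ l → ∀ ρ, ev H (x ρ) c ≠ 0 := by
    intro c hc ρ
    have h1 := zer_prod hc x N hN
    rw [← h1] at hN0
    exact Finset.prod_ne_zero_iff.mp hN0 ρ (Finset.mem_univ ρ)
  have hpos : ∀ {c : Fin m → H}, c ∈ Zer H K₁ l → ∀ ρ, 0 < V.valuation (ev H (x ρ) c) := fun hc ρ =>
    zero_lt_iff.mpr ((Valuation.ne_zero_iff _).mpr (hne hc ρ))
  -- for every point the larger of the two values
  have hbig : ∀ ρ, ∃ c ∈ Zer H K₁ l, V.valuation (ev H (x ρ) l') ≤ V.valuation (ev H (x ρ) c) ∧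
      V.valuation (ev H (x ρ) l'') ≤ V.valuation (ev H (x ρ) c) := by
    intro ρ
    rcases le_total (V.valuation (ev H (x ρ) l')) (V.valuation (ev H (x ρ) l'')) with h | h
    · exact ⟨l'', h'', h, le_rfl⟩
    · exact ⟨l', h', le_rfl, h⟩
  choose c hc hc1 hc2 using hbig
  have hG : ∀ ρ, ∃ G : (Fin m → H) →ₗ[H] H, G (c ρ) ≠ 0 ∧
      ∀ d, V.valuation (ev H (x ρ) d) < V.valuation (ev H (x ρ) (c ρ)) → G d = 0 := by
    intro ρ
    have h1 : c ρ ∉ small V hV (x ρ) (ev H (x ρ) (c ρ)) (hne (hc ρ) ρ) := fun h =>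
      lt_irrefl (V.valuation (ev H (x ρ) (c ρ))) h
    obtain ⟨G, hG1, hG2⟩ := Submodule.exists_le_ker_of_notMem h1
    exact ⟨G, hG1, fun d hd => hG2 hd⟩
  choose G hG1 hG2 using hG
  have hg : aeval l (∏ ρ, pol (G ρ)) ≠ 0 := by
    rw [map_prod]
    refine Finset.prod_ne_zero_iff.mpr fun ρ _ h0 => hG1 ρ ?_
    have h1 := zer_of_aeval (hc ρ) _ h0
    rwa [aeval_pol] at h1
  obtain ⟨d, hd, hd2⟩ := rn (K₁ := K₁) l b hb hl _ hg
  rw [map_prod] at hd2
  have hd3 : ∀ ρ, V.valuation (ev H (x ρ) (c ρ)) ≤ V.valuation (ev H (x ρ) d) := by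
    intro ρ
    by_contra h
    rw [not_le] at h
    have h1 := Finset.prod_ne_zero_iff.mp hd2 ρ (Finset.mem_univ ρ)
    rw [aeval_pol] at h1
    exact h1 (hG2 ρ d h)
  have e1 := congrArg V.valuation (zer_prod h' x N hN)
  have e2 := congrArg V.valuation (zer_prod hd x N hN)
  rw [map_prod] at e1 e2
  rw [← e2, ← Finset.mul_prod_erase _ _ (Finset.mem_univ σ), ← Finset.mul_prod_erase _ (fun ρ => V.valuation (ev H (x ρ) d)) (Finset.mem_univ σ)] at e1
  have h3 : V.valuation (ev H (x σ) l') < V.valuation (ev H (x σ) d) := hlt.trans_le ((hc2 σ).trans (hd3 σ))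
  have h4 : ∏ ρ ∈ Finset.univ.erase σ, V.valuation (ev H (x ρ) l') ≤ ∏ ρ ∈ Finset.univ.erase σ, V.valuation (ev H (x ρ) d) :=
    Finset.prod_le_prod' fun ρ _ => (hc1 ρ).trans (hd3 ρ)
  have h5 : (0 : V.ValueGroup) < ∏ ρ ∈ Finset.univ.erase σ, V.valuation (ev H (x ρ) d) := by
    rw [zero_lt_iff]
    exact Finset.prod_ne_zero_iff.mpr fun ρ _ => (hpos hd ρ).ne'
  refine absurd e1 (ne_of_lt ?_)
  calc V.valuation (ev H (x σ) l') * ∏ ρ ∈ Finset.univ.erase σ, V.valuation (ev H (x ρ) l')
      ≤ V.valuation (ev H (x σ) l') * ∏ ρ ∈ Finset.univ.erase σ, V.valuation (ev H (x ρ) d) := mul_le_mul_right h4 _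
    _ < V.valuation (ev H (x σ) d) * ∏ ρ ∈ Finset.univ.erase σ, V.valuation (ev H (x ρ) d) :=
      (mul_lt_mul_iff_left₀ h5).mpr h3

/-- the values of two points of `Zer` are proportional -/
theorem val_prop [IsAlgClosed H] [IsScalarTower H K₁ Ω] {m τ r : ℕ} (l : Fin m → Ω) (b : Fin τ → Fin m)
    (hb : AlgebraicIndependent K₁ fun i => l (b i)) (hl : ∀ j, l j ∈ cl H (Set.range fun i => l (b i)))
    (x : Fin r → Fin m → K₁) (N : K₁) (hN0 : N ≠ 0)
    (hN : ∏ σ, ∑ j, algebraMap K₁ Ω (x σ j) * l j = algebraMap K₁ Ω N)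
    {l' l'' : Fin m → H} (h' : l' ∈ Zer H K₁ l) (h'' : l'' ∈ Zer H K₁ l) (σ : Fin r) :
    ∃ c : H, ev H (x σ) l' = c • ev H (x σ) l'' := by
  have hne : ev H (x σ) l'' ≠ 0 := by
    have h1 := zer_prod h'' x N hN
    rw [← h1] at hN0
    exact Finset.prod_ne_zero_iff.mp hN0 σ (Finset.mem_univ σ)
  obtain ⟨c, hc⟩ := cst_of_all (H := H) (ev H (x σ) l' / ev H (x σ) l'') (by
    intro V hV
    rw [← V.valuation_le_one_iff, map_div₀]
    have h1 := val_le l b hb hl x N hN0 hN V hV h'' h' σ
    exact div_le_one_of_le₀ h1 zero_le)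
  refine ⟨c, ?_⟩
  rw [Algebra.smul_def, ← hc, div_mul_cancel₀ _ hne]

/-- a family with a nontrivial polynomial relation has smaller rank -/
theorem rk_lt {D : ℕ} (s : Fin D → Ω) (h : ¬ AlgebraicIndependent H s) : rk H (Set.range s) + 1 ≤ D := by
  by_contra hlt
  rw [not_le] at hlt
  have h1 : (D : ℕ∞) ≤ rk H (Set.range s) := Order.le_of_lt_add_one hlt
  obtain ⟨b, hbs, hb, hbr⟩ := exists_basis (k := H) (Set.range s)
  have hfin : (Set.range s).Finite := Set.finite_range s
  have hcard : (Set.range s).encard ≤ D := by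
    rw [← Set.image_univ]
    refine (Set.encard_image_le s _).trans ?_
    rw [Set.encard_univ]
    simp
  have hb2 : b = Set.range s := by
    refine (hfin.subset hbs).eq_of_subset_of_encard_le hbs ?_
    rw [hbr]
    exact hcard.trans h1
  subst hb2
  have hinj : Function.Injective s := by
    have h2 : (Set.univ : Set (Fin D)).encard ≤ (s '' Set.univ).encard := by
      rw [Set.image_univ, hbr]
      refine le_trans ?_ h1
      rw [Set.encard_univ]
      simp
    have h3 := (Set.finite_univ (α := Fin D)).injOn_of_encard_image_eq (le_antisymm (Set.encard_image_le s _) h2)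
    exact Set.injOn_univ.mp h3
  apply h
  exact (hb.comp (fun i => ⟨s i, ⟨i, rfl⟩⟩) fun i j hij => hinj (Subtype.ext_iff.mp hij))

theorem cut [IsAlgClosed H] [IsScalarTower H K₁ Ω] {m τ r : ℕ} (l : Fin m → Ω) (b : Fin τ → Fin m)
    (hb : AlgebraicIndependent K₁ fun i => l (b i)) (hl : ∀ j, l j ∈ cl H (Set.range fun i => l (b i)))
    (x : Fin r → Fin m → K₁) (N : K₁) (hN0 : N ≠ 0)
    (hN : ∏ σ, ∑ j, algebraMap K₁ Ω (x σ j) * l j = algebraMap K₁ Ω N) (s0 : Fin r) (e : ℕ)
    (he : e + 1 ≤ Module.finrank H (Submodule.span H (Set.range (x s0)))) : τ + e + 1 ≤ m := by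
  classical
  obtain ⟨l0, hl0, -⟩ := rn (K₁ := K₁) l b hb hl 1 (by rw [map_one]; exact one_ne_zero)
  have hne : ∀ ρ, ev H (x ρ) l0 ≠ 0 := by
    intro ρ
    have h1 := zer_prod hl0 x N hN
    rw [← h1] at hN0
    exact Finset.prod_ne_zero_iff.mp hN0 ρ (Finset.mem_univ ρ)
  set Λ : Submodule H (Fin m → H) := Submodule.span H (Zer H K₁ l) with hΛ
  -- the values of all elements of `Λ`
  have hprop : ∀ ρ, ∀ c ∈ Λ, ∃ a : H, ev H (x ρ) c = a • ev H (x ρ) l0 := by
    intro ρ c hc
    induction hc using Submodule.span_induction with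
    | mem c hc => exact val_prop l b hb hl x N hN0 hN hc hl0 ρ
    | zero => exact ⟨0, by rw [map_zero, zero_smul]⟩
    | add c d _ _ hc hd =>
      obtain ⟨a, ha⟩ := hc
      obtain ⟨a', ha'⟩ := hd
      exact ⟨a + a', by rw [map_add, ha, ha', add_smul]⟩
    | smul t c _ hc =>
      obtain ⟨a, ha⟩ := hc
      exact ⟨t * a, by rw [map_smul, ha, smul_smul]⟩
  -- the dimension of `Λ`
  have hdim : Module.finrank H Λ + e ≤ m := by
    have h1 := LinearMap.finrank_range_add_finrank_ker (ev H (x s0))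
    have h2 : LinearMap.range (ev H (x s0)) = Submodule.span H (Set.range (x s0)) := by
      unfold ev
      rw [Fintype.range_linearCombination]
    rw [h2, Module.finrank_fin_fun] at h1
    have h3 := LinearMap.finrank_range_add_finrank_ker ((ev H (x s0)).domRestrict Λ)
    have h4 : Module.finrank H (LinearMap.range ((ev H (x s0)).domRestrict Λ)) ≤ 1 := by
      have h5 : LinearMap.range ((ev H (x s0)).domRestrict Λ) ≤ Submodule.span H {ev H (x s0) l0} := by
        rintro _ ⟨⟨c, hc⟩, rfl⟩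
        obtain ⟨a, ha⟩ := hprop s0 c hc
        rw [Submodule.mem_span_singleton]
        exact ⟨a, ha.symm⟩
      exact (Submodule.finrank_mono h5).trans (finrank_span_singleton (hne s0)).le
    have h6 : Module.finrank H (LinearMap.ker ((ev H (x s0)).domRestrict Λ)) ≤ Module.finrank H (LinearMap.ker (ev H (x s0))) := by
      have h7 : (LinearMap.ker ((ev H (x s0)).domRestrict Λ)).map Λ.subtype ≤ LinearMap.ker (ev H (x s0)) := by
        rintro _ ⟨c, hc, rfl⟩
        exact hc
      rw [(Submodule.equivMapOfInjective Λ.subtype Λ.injective_subtype _).finrank_eq]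
      exact Submodule.finrank_mono h7
    omega
  -- the linear forms in the coordinates of `l`
  let J : Module.Dual H (Fin m → H) →ₗ[H] (Fin m → H) := LinearMap.pi fun j => LinearMap.applyₗ (Pi.single j 1)
  let A : Module.Dual H (Fin m → H) →ₗ[H] Ω := (ev H l).comp J
  have hA : ∀ G : Module.Dual H (Fin m → H), A G = aeval l (pol G) := fun G => (aeval_pol' G l).symm
  have hkill : ∀ g : MvPolynomial (Fin m) H, (∀ c ∈ Zer H K₁ l, aeval c g = 0) → aeval l g = 0 := by
    intro g hg
    by_contra h0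
    obtain ⟨c, hc, hc2⟩ := rn (K₁ := K₁) l b hb hl g h0
    exact hc2 (hg c hc)
  have hS : Module.finrank H (LinearMap.range A) + e ≤ m := by
    have h1 := LinearMap.finrank_range_add_finrank_ker A
    rw [Subspace.dual_finrank_eq, Module.finrank_fin_fun] at h1
    have h2 : Λ.dualAnnihilator ≤ LinearMap.ker A := by
      intro G hG
      rw [LinearMap.mem_ker, hA]
      refine hkill _ fun c hc => ?_
      rw [aeval_pol]
      exact (Submodule.mem_dualAnnihilator G).mp hG c (Submodule.subset_span hc)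
    have h3 := Subspace.finrank_add_finrank_dualAnnihilator_eq Λ
    rw [Module.finrank_fin_fun] at h3
    have h4 := Submodule.finrank_mono h2
    omega
  -- the multiplicative relation
  have hφ : ∀ σ, ∃ φ : K₁ →ₗ[H] H, φ (ev H (x σ) l0) = 1 := by
    intro σ
    obtain ⟨f, hf, -⟩ := Submodule.exists_le_ker_of_notMem (p := (⊥ : Submodule H K₁)) (v := ev H (x σ) l0)
      (by rw [Submodule.mem_bot]; exact hne σ)
    refine ⟨(f (ev H (x σ) l0))⁻¹ • f, ?_⟩
    rw [LinearMap.smul_apply, smul_eq_mul, inv_mul_cancel₀ hf]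
  choose φ hφ using hφ
  let G : Fin r → Module.Dual H (Fin m → H) := fun σ => (φ σ).comp (ev H (x σ))
  have hG : ∏ σ, A (G σ) = 1 := by
    have h1 := hkill ((∏ σ, pol (G σ)) - 1) (by
      intro c hc
      rw [map_sub, map_prod, map_one, sub_eq_zero]
      have h2 : ∀ σ, ev H (x σ) c = algebraMap H K₁ (G σ c) * ev H (x σ) l0 := by
        intro σ
        obtain ⟨a, ha⟩ := hprop σ c (Submodule.subset_span hc)
        have h3 : G σ c = a := by
          show φ σ (ev H (x σ) c) = a
          rw [ha, map_smul, hφ, smul_eq_mul, mul_one]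
        rw [h3, ha, Algebra.smul_def]
      have h3 := zer_prod hc x N hN
      rw [Finset.prod_congr rfl fun σ _ => h2 σ, Finset.prod_mul_distrib, zer_prod hl0 x N hN] at h3
      have h4 : ∏ σ, algebraMap H K₁ (G σ c) = 1 := by
        have := mul_right_cancel₀ hN0 (h3.trans (one_mul N).symm)
        exact this
      rw [← map_prod, ← map_one (algebraMap H K₁)] at h4
      rw [Finset.prod_congr rfl fun σ _ => aeval_pol (G σ) c]
      exact (algebraMap H K₁).injective h4)
    rw [map_sub, map_prod, map_one, sub_eq_zero] at h1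
    rw [← h1]
    exact Finset.prod_congr rfl fun σ _ => hA (G σ)
  -- a basis of the linear forms
  let B := Module.finBasis H (LinearMap.range A)
  let s : Fin (Module.finrank H (LinearMap.range A)) → Ω := fun c => (B c : Ω)
  have hrep : ∀ G : Module.Dual H (Fin m → H), ∃ a : Fin (Module.finrank H (LinearMap.range A)) → H,
      A G = ∑ c, algebraMap H Ω (a c) * s c := by
    intro G
    refine ⟨B.repr ⟨A G, ⟨G, rfl⟩⟩, ?_⟩
    have h1 := congrArg (LinearMap.range A).subtype (B.sum_repr ⟨A G, ⟨G, rfl⟩⟩)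
    rw [map_sum] at h1
    refine h1.symm.trans (Finset.sum_congr rfl fun c _ => ?_)
    rw [map_smul, Algebra.smul_def]
    rfl
  have hs : ¬ AlgebraicIndependent H s := by
    intro hind
    choose a ha using fun σ => hrep (G σ)
    have h1 : aeval s ((∏ σ, ∑ c, C (a σ c) * X c) - 1 : MvPolynomial _ H) = 0 := by
      rw [map_sub, map_prod, map_one, ← hG, sub_eq_zero]
      refine Finset.prod_congr rfl fun σ _ => ?_
      rw [ha, map_sum]
      refine Finset.sum_congr rfl fun c _ => ?_
      rw [map_mul, aeval_C, aeval_X]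
    have h2 := (algebraicIndependent_iff.mp hind) _ h1
    have h3 := congrArg (eval (0 : Fin (Module.finrank H (LinearMap.range A)) → H)) h2
    rw [map_sub, map_prod, map_one, map_zero, Finset.prod_eq_zero (Finset.mem_univ s0)] at h3
    · rw [zero_sub, neg_eq_zero] at h3
      exact one_ne_zero h3
    · rw [map_sum]
      exact Finset.sum_eq_zero fun c _ => by rw [map_mul, eval_X, Pi.zero_apply, mul_zero]
  have h1 := rk_lt s hs
  have h2 : (τ : ℕ∞) ≤ rk H (Set.range s) := by
    have h3 := rk_of_algInd (k := H) _ (hb.restrictScalars (algebraMap H K₁).injective)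
    rw [Set.encard_univ] at h3
    have h4 : (τ : ℕ∞) = rk H (Set.range fun i => l (b i)) := by
      rw [h3]
      simp
    rw [h4]
    refine rk_le_of_subset ?_
    rintro _ ⟨i, rfl⟩
    obtain ⟨a, ha⟩ := hrep (LinearMap.proj (b i))
    have h5 : A (LinearMap.proj (b i)) = l (b i) := by
      rw [hA]
      unfold pol
      rw [map_sum, Finset.sum_eq_single (b i)]
      · rw [map_mul, aeval_C, aeval_X, LinearMap.proj_apply, Pi.single_eq_same, map_one, one_mul]
      · intro j _ hj
        rw [map_mul, aeval_C, LinearMap.proj_apply, Pi.single_eq_of_ne hj.symm, map_zero, zero_mul]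
      · intro h
        exact absurd (Finset.mem_univ _) h
    show l (b i) ∈ _
    rw [← h5, ha]
    exact cl_sum _ _ fun c _ => cl_mul (cl_cst _ _) (subset_cl _ ⟨c, rfl⟩)
  have h3 : ((τ + 1 : ℕ) : ℕ∞) ≤ (Module.finrank H (LinearMap.range A) : ℕ∞) := by
    refine le_trans ?_ h1
    push_cast
    exact add_le_add_left h2 1
  have h4 : τ + 1 ≤ Module.finrank H (LinearMap.range A) := by exact_mod_cast h3
  omega

end

end Pool.Agent.PC
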