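import Pool.Agent.Helper61.PC.Cop
import Pool.Agent.Helper61.PC.Cut
import Pool.Agent.Helper61.FIN.TwinX

/-!
# Project PC: existence of independent copies
-/

set_option autoImplicit false

namespace Pool.Agent.PC

open Pool.Agent.GS MvPolynomial

universe u

/-- `cl` over a field `K₁` with carrier `cl k T` -/
theorem cl_over {k K : Type u} [Field k] [Field K] [Algebra k K] (T : Set K) (K₁ : Subfield K) (hK : (K₁ : Set K) = cl k T)
    (S : Set K) : cl K₁ S ⊆ cl k (T ∪ S) := by
  intro z hz
  rw [mem_cl] at hz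
  obtain ⟨F', hF', hacl⟩ := FIN.aclk61 (k := k) (T ∪ S)
  have hsub : ∀ y : Algebra.adjoin K₁ S, (y : K) ∈ F' := by
    rintro ⟨y, hy⟩
    refine Algebra.adjoin_induction (s := S) (p := fun y _ => y ∈ F') ?_ ?_ ?_ ?_ hy
    · intro y hy
      rw [← SetLike.mem_coe, hF']
      exact subset_cl _ (Or.inr hy)
    · intro c
      rw [← SetLike.mem_coe, hF']
      refine cl_mono (Set.subset_union_left (t := S)) ?_
      rw [← hK]
      exact c.2
    · intro a b _ _ ha hb
      exact F'.add_mem ha hb
    · intro a b _ _ ha hb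
      exact F'.mul_mem ha hb
  obtain ⟨P, hP, hPz⟩ := hz
  have h1 := hacl (P.map (algebraMap (Algebra.adjoin K₁ S) K)) (by
    rw [Ne, Polynomial.map_eq_zero_iff (FaithfulSMul.algebraMap_injective _ _)]
    exact hP) (fun i => by
      rw [Polynomial.coeff_map]
      exact hsub _) z (by
      rw [Polynomial.eval_map]
      exact hPz)
  rw [← SetLike.mem_coe, hF'] at h1
  exact h1

theorem cl_map {F E Ω : Type u} [Field F] [Field E] [Field Ω] [Algebra F E] [Algebra F Ω] (φ : E →ₐ[F] Ω) (s : Set E)
    (z : E) (hz : z ∈ cl F s) : φ z ∈ cl F (φ '' s) := by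
  rw [mem_cl] at hz
  obtain ⟨F', hF', hacl⟩ := FIN.aclk61 (k := F) (φ '' s)
  have hsub : ∀ y : Algebra.adjoin F s, φ (y : E) ∈ F' := by
    rintro ⟨y, hy⟩
    refine Algebra.adjoin_induction (s := s) (p := fun y _ => φ y ∈ F') ?_ ?_ ?_ ?_ hy
    · intro y hy
      rw [← SetLike.mem_coe, hF']
      exact subset_cl _ ⟨y, hy, rfl⟩
    · intro c
      rw [AlgHom.commutes, ← SetLike.mem_coe, hF']
      exact cl_cst _ _
    · intro a b _ _ ha hb
      rw [map_add]
      exact F'.add_mem ha hb
    · intro a b _ _ ha hb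
      rw [map_mul]
      exact F'.mul_mem ha hb
  obtain ⟨P, hP, hPz⟩ := hz
  have h1 := hacl (P.map ((φ : E →+* Ω).comp (algebraMap (Algebra.adjoin F s) E))) (by
    rw [Ne, Polynomial.map_eq_zero_iff]
    · exact hP
    · exact (φ : E →+* Ω).injective.comp (FaithfulSMul.algebraMap_injective _ _)) (fun i => by
      rw [Polynomial.coeff_map]
      exact hsub _) (φ z) (by
      have h2 := Polynomial.hom_eval₂ P (algebraMap (Algebra.adjoin F s) E) (φ : E →+* Ω) z
      rw [← Polynomial.aeval_def, hPz, map_zero] at h2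
      rw [Polynomial.eval_map]
      exact h2.symm)
  rw [← SetLike.mem_coe, hF'] at h1
  exact h1

/-- extension of a specialisation of a transcendence basis -/
theorem exists_ext {F E Ω ι : Type u} [Field F] [Field E] [Field Ω] [Algebra F E] [Algebra F Ω] [IsAlgClosed Ω]
    (t : ι → E) (ht : IsTranscendenceBasis F t) (T : ι → Ω) (hT : AlgebraicIndependent F T) :
    ∃ φ : E →ₐ[F] Ω, ∀ i, φ (t i) = T i := by
  let A := Algebra.adjoin F (Set.range t)
  have hinj : Function.Injective (aeval T : MvPolynomial ι F →ₐ[F] Ω) := hT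
  let f : A →ₐ[F] Ω := (aeval T : MvPolynomial ι F →ₐ[F] Ω).comp (ht.1.aevalEquiv.symm : A →ₐ[F] MvPolynomial ι F)
  have hf : Function.Injective f := hinj.comp ht.1.aevalEquiv.symm.injective
  let _ : Algebra A Ω := f.toRingHom.toAlgebra
  have : IsScalarTower F A Ω := IsScalarTower.of_algebraMap_eq fun c => (f.commutes c).symm
  have : FaithfulSMul A Ω := (faithfulSMul_iff_algebraMap_injective A Ω).mpr hf
  have : Algebra.IsAlgebraic A E := ht.isAlgebraic
  let g : E →ₐ[A] Ω := IsAlgClosed.lift
  refine ⟨g.restrictScalars F, fun i => ?_⟩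
  have h1 : t i = algebraMap A E ⟨t i, Algebra.subset_adjoin ⟨i, rfl⟩⟩ := rfl
  show g (t i) = T i
  rw [h1, g.commutes]
  show aeval T (ht.1.aevalEquiv.symm ⟨t i, Algebra.subset_adjoin ⟨i, rfl⟩⟩) = T i
  have h2 : ht.1.aevalEquiv.symm ⟨t i, Algebra.subset_adjoin ⟨i, rfl⟩⟩ = X i := by
    rw [AlgEquiv.symm_apply_eq]
    apply Subtype.ext
    have h3 := ht.1.algebraMap_aevalEquiv (X i)
    rw [aeval_X] at h3
    exact h3.symm
  rw [h2, aeval_X]

/-- elements of a finite set of the transcendence basis -/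
theorem exists_fin {F E ι : Type u} [Field F] [Field E] [Algebra F E] (t : ι → E) (ht : IsTranscendenceBasis F t) (z : E) :
    ∃ s : Finset ι, z ∈ cl F (t '' s) := by
  classical
  have h1 : z ∈ (AlgebraicIndependent.matroid F E).closure (Set.range t) := by
    show z ∈ cl F (Set.range t)
    rw [mem_cl]
    have := ht.isAlgebraic
    exact Algebra.IsAlgebraic.isAlgebraic z
  obtain ⟨S, hS, hfin, -, hz⟩ := Matroid.exists_mem_finite_closure_of_mem_closure h1
  rw [← Set.image_univ] at hS
  obtain ⟨s, -, hs⟩ := (Set.subset_image_iff.mp hS)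
  have h2 : ∃ s' : Finset ι, S ⊆ t '' s' := by
    rw [← hs] at hfin
    obtain ⟨s', -, hs'⟩ := Set.exists_subset_bijOn s t
    have h3 : s'.Finite := by
      apply Set.Finite.of_finite_image _ hs'.injOn
      rw [hs'.image_eq]
      exact hfin
    refine ⟨h3.toFinset, ?_⟩
    rw [← hs, ← hs'.image_eq]
    exact Set.image_mono fun x hx => by simpa using hx
  obtain ⟨s', hs'⟩ := h2
  exact ⟨s', cl_mono hs' hz⟩

/-- linear independence over the closure of a set over which the transcendence basis stays independent -/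
theorem ld_aux {F E Ω ι : Type u} [Field F] [Field E] [Field Ω] [Algebra F E] [Algebra F Ω] [IsAlgClosed F]
    (t : ι → E) (ht : IsTranscendenceBasis F t) (φ : E →ₐ[F] Ω) (S : Set Ω)
    (hS : AlgebraicIndependent (Algebra.adjoin F S) (fun i => φ (t i))) (L : Subfield Ω) (hL : (L : Set Ω) = cl F S)
    {κ : ℕ} (z : Fin κ → E) (hz : LinearIndependent F z) (c : Fin κ → Ω) (hc : ∀ j, c j ∈ L)
    (h : ∑ j, c j * φ (z j) = 0) : ∀ j, c j = 0 := by
  classical
  -- algebras
  have hFL : ∀ a : F, algebraMap F Ω a ∈ L := by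
    intro a
    rw [← SetLike.mem_coe, hL]
    exact cl_cst _ _
  let _ : Algebra F L := ((algebraMap F Ω).codRestrict L.toSubring hFL).toAlgebra
  have htower : IsScalarTower F L Ω := IsScalarTower.of_algebraMap_eq fun _ => rfl
  have hAL : ∀ a : Algebra.adjoin F S, algebraMap (Algebra.adjoin F S) Ω a ∈ L := by
    intro a
    rw [← SetLike.mem_coe, hL, mem_cl]
    exact isAlgebraic_algebraMap a
  let _ : Algebra (Algebra.adjoin F S) L := ((algebraMap (Algebra.adjoin F S) Ω).codRestrict L.toSubring hAL).toAlgebra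
  have htower2 : IsScalarTower (Algebra.adjoin F S) L Ω := IsScalarTower.of_algebraMap_eq fun _ => rfl
  have halg : Algebra.IsAlgebraic (Algebra.adjoin F S) L := by
    constructor
    intro y
    have h1 : IsAlgebraic (Algebra.adjoin F S) (y : Ω) := by
      rw [← mem_cl, ← hL]
      exact y.2
    exact (isAlgebraic_algHom_iff (IsScalarTower.toAlgHom (Algebra.adjoin F S) L Ω) Subtype.val_injective).mp h1
  have hS' := hS.extendScalars L
  -- finitely many elements of the transcendence basis
  choose s hs using fun j => exists_fin t ht (z j)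
  let s' : Finset ι := Finset.univ.biUnion s
  let e := s'.equivFin
  let τ := s'.card
  let l : Fin (κ + τ) → Ω := Fin.append (fun j => φ (z j)) fun i => φ (t (e.symm i))
  let b : Fin τ → Fin (κ + τ) := Fin.natAdd κ
  have hlb : (fun i => l (b i)) = fun i : Fin τ => φ (t (e.symm i)) := by
    funext i
    exact Fin.append_right _ _ i
  have hb : AlgebraicIndependent L fun i => l (b i) := by
    rw [hlb]
    exact hS'.comp (fun i : Fin τ => (e.symm i : ι)) (Subtype.val_injective.comp e.symm.injective)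
  have hl : ∀ j, l j ∈ cl F (Set.range fun i => l (b i)) := by
    intro j
    refine Fin.addCases (fun j => ?_) (fun j => ?_) j
    · have h1 : l (Fin.castAdd τ j) = φ (z j) := Fin.append_left _ _ j
      rw [h1, hlb]
      refine cl_mono ?_ (cl_map φ _ _ (hs j))
      rintro _ ⟨_, ⟨i, hi, rfl⟩, rfl⟩
      refine ⟨e ⟨i, Finset.mem_biUnion.mpr ⟨j, Finset.mem_univ j, hi⟩⟩, ?_⟩
      simp
    · exact subset_cl _ ⟨j, rfl⟩
  by_contra hcon
  push Not at hcon
  obtain ⟨j0, hj0⟩ := hcon
  let c' : Fin κ → L := fun j => ⟨c j, hc j⟩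
  have hZ : ∀ l' ∈ Zer F L l, ∑ j, c' j * algebraMap F L (l' (Fin.castAdd τ j)) = 0 := by
    intro l' hl'
    have h1 := hl' (∑ j, C (c' j) * X (Fin.castAdd τ j)) (by
      rw [map_sum, ← h]
      refine Finset.sum_congr rfl fun j _ => ?_
      rw [map_mul, aeval_C, aeval_X]
      have h2 : l (Fin.castAdd τ j) = φ (z j) := Fin.append_left _ _ j
      rw [h2]
      rfl)
    rw [map_sum] at h1
    rw [← h1]
    refine Finset.sum_congr rfl fun j _ => ?_
    rw [map_mul, aeval_C, aeval_X]
    rfl
  -- a functional which vanishes on `Zer`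
  have hne : LinearMap.ker (ev F c') < ⊤ := by
    rw [lt_top_iff_ne_top]
    intro htop
    have h1 : (Pi.single j0 (1 : F) : Fin κ → F) ∈ LinearMap.ker (ev F c') := by
      rw [htop]
      trivial
    rw [LinearMap.mem_ker, ev_apply] at h1
    have h2 : ∑ j, algebraMap F L ((Pi.single j0 (1 : F) : Fin κ → F) j) * c' j = c' j0 := by
      rw [Finset.sum_eq_single j0]
      · simp
      · intro j _ hj
        simp [hj]
      · intro hj
        exact absurd (Finset.mem_univ _) hj
    rw [h2] at h1
    exact hj0 (congrArg Subtype.val h1)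
  obtain ⟨f, hf0, hf⟩ := Submodule.exists_le_ker_of_lt_top _ hne
  have hsum : ∑ j, f (Pi.single j 1) • z j = 0 := by
    by_contra hnz
    let g : MvPolynomial (Fin (κ + τ)) F := ∑ j : Fin κ, C (f (Pi.single j 1)) * X (Fin.castAdd τ j)
    have hg : aeval l g = φ (∑ j, f (Pi.single j 1) • z j) := by
      rw [map_sum, map_sum]
      refine Finset.sum_congr rfl fun j _ => ?_
      rw [map_mul, aeval_C, aeval_X, map_smul, Algebra.smul_def]
      have h2 : l (Fin.castAdd τ j) = φ (z j) := Fin.append_left _ _ j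
      rw [h2]
    obtain ⟨l', hl', hgl'⟩ := rn l b hb hl g (by
      rw [hg]
      exact fun h0 => hnz ((map_eq_zero φ).mp h0))
    apply hgl'
    have h1 : (fun j => l' (Fin.castAdd τ j)) ∈ LinearMap.ker (ev F c') := by
      rw [LinearMap.mem_ker, ev_apply, ← hZ l' hl']
      exact Finset.sum_congr rfl fun j _ => mul_comm _ _
    have h2 := hf h1
    rw [LinearMap.mem_ker] at h2
    rw [← h2, ← aeval_pol]
    show aeval l' g = aeval (fun j => l' (Fin.castAdd τ j)) (∑ j, C (f (Pi.single j 1)) * X j)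
    rw [map_sum, map_sum]
    refine Finset.sum_congr rfl fun j _ => ?_
    rw [map_mul, map_mul, aeval_C, aeval_C, aeval_X, aeval_X]
  have h3 := Fintype.linearIndependent_iff.mp hz _ hsum
  apply hf0
  apply LinearMap.pi_ext'
  intro j
  ext
  exact h3 j

/-- existence of independent copies -/
theorem exists_cop (F E : Type u) [Field F] [IsAlgClosed F] [Field E] [Algebra F E] (p : ℕ) :
    ∃ (Ω : Type u) (_ : Field Ω) (_ : IsAlgClosed Ω) (_ : Algebra F Ω), Nonempty (Cop F E Ω p) := by
  classical
  obtain ⟨ι, t, ht⟩ := exists_isTranscendenceBasis' F E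
  let R := MvPolynomial (Fin p × ι) F
  let Ω := AlgebraicClosure (FractionRing R)
  let T : Fin p × ι → Ω := fun x => algebraMap R Ω (X x)
  have hinj : Function.Injective (algebraMap R Ω) := by
    rw [IsScalarTower.algebraMap_eq R (FractionRing R) Ω]
    exact (algebraMap (FractionRing R) Ω).injective.comp (IsFractionRing.injective R (FractionRing R))
  have hT : AlgebraicIndependent F T :=
    (MvPolynomial.algebraicIndependent_X (Fin p × ι) F).map' (f := IsScalarTower.toAlgHom F R Ω) hinj
  have hpair : ∀ a : Fin p, Function.Injective fun i : ι => (a, i) := fun a i j h => (Prod.mk.inj h).2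
  choose φ hφ using fun a : Fin p => exists_ext t ht (fun i => T (a, i)) (hT.comp _ (hpair a))
  let S : Fin p → Set Ω := fun a => T '' {x | x.1 < a}
  choose L hL hacl using fun a : Fin p => FIN.aclk61 (k := F) (S a)
  refine ⟨Ω, inferInstance, inferInstance, inferInstance, ⟨⟨φ, L, ?_, ?_, hacl, ?_⟩⟩⟩
  · intro a c
    rw [← SetLike.mem_coe, hL]
    exact cl_cst _ _
  · intro a b hab z
    rw [← SetLike.mem_coe, hL]
    have h1 : z ∈ cl F (Set.range t) := by
      rw [mem_cl]
      have := ht.isAlgebraic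
      exact Algebra.IsAlgebraic.isAlgebraic z
    refine cl_mono ?_ (cl_map (φ b) _ _ h1)
    rintro _ ⟨_, ⟨i, rfl⟩, rfl⟩
    exact ⟨(b, i), hab, (hφ b i).symm⟩
  · intro a κ z hz c hc h
    refine ld_aux t ht (φ a) (S a) ?_ (L a) (hL a) z hz c hc h
    have h1 : (fun i => φ a (t i)) = fun i => T (a, i) := funext fun i => hφ a i
    rw [h1]
    have h2 := hT.adjoin_of_disjoint (s := {x | x.1 < a}) (t := {x | x.1 = a}) (by
      rw [Set.disjoint_left]
      rintro x hx hx'
      exact absurd hx' (ne_of_lt hx))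
    exact h2.comp (fun i : ι => ⟨(a, i), rfl⟩) fun i j h => hpair a (congrArg Subtype.val h)

end Pool.Agent.PC
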