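import Pool.Agent.Helper61.PC.Cut

/-!
# Project PC: the cutting lemma, general form

The transcendence degree of `l` over `H` is smaller than the dimension of the span of `Zer`, and the values of two elements of the
span at a point are proportional.
-/

set_option autoImplicit false

namespace Pool.Agent.PC

open Pool.Agent.GS MvPolynomial

universe u

section

variable {H K₁ Ω : Type u} [Field H] [Field K₁] [Field Ω] [Algebra H K₁] [Algebra K₁ Ω] [Algebra H Ω]

theorem span_prop [IsAlgClosed H] [IsScalarTower H K₁ Ω] {m τ r : ℕ} (l : Fin m → Ω) (b : Fin τ → Fin m)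
    (hb : AlgebraicIndependent K₁ fun i => l (b i)) (hl : ∀ j, l j ∈ cl H (Set.range fun i => l (b i)))
    (x : Fin r → Fin m → K₁) (N : K₁) (hN0 : N ≠ 0)
    (hN : ∏ σ, ∑ j, algebraMap K₁ Ω (x σ j) * l j = algebraMap K₁ Ω N) {l0 : Fin m → H} (hl0 : l0 ∈ Zer H K₁ l) (ρ : Fin r)
    (c : Fin m → H) (hc : c ∈ Submodule.span H (Zer H K₁ l)) : ∃ a : H, ev H (x ρ) c = a • ev H (x ρ) l0 := by
  induction hc using Submodule.span_induction with
  | mem c hc => exact val_prop l b hb hl x N hN0 hN hc hl0 ρ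
  | zero => exact ⟨0, by rw [map_zero, zero_smul]⟩
  | add c d _ _ hc hd =>
    obtain ⟨a, ha⟩ := hc
    obtain ⟨a', ha'⟩ := hd
    exact ⟨a + a', by rw [map_add, ha, ha', add_smul]⟩
  | smul t c _ hc =>
    obtain ⟨a, ha⟩ := hc
    exact ⟨t * a, by rw [map_smul, ha, smul_smul]⟩

theorem cut_dim [IsAlgClosed H] [IsScalarTower H K₁ Ω] {m τ r : ℕ} (l : Fin m → Ω) (b : Fin τ → Fin m)
    (hb : AlgebraicIndependent K₁ fun i => l (b i)) (hl : ∀ j, l j ∈ cl H (Set.range fun i => l (b i)))
    (x : Fin r → Fin m → K₁) (N : K₁) (hN0 : N ≠ 0)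
    (hN : ∏ σ, ∑ j, algebraMap K₁ Ω (x σ j) * l j = algebraMap K₁ Ω N) (s0 : Fin r) (e : ℕ)
    (hdim : Module.finrank H (Submodule.span H (Zer H K₁ l)) + e ≤ m) : τ + e + 1 ≤ m := by
  classical
  obtain ⟨l0, hl0, -⟩ := rn (K₁ := K₁) l b hb hl 1 (by rw [map_one]; exact one_ne_zero)
  have hne : ∀ ρ, ev H (x ρ) l0 ≠ 0 := by
    intro ρ
    have h1 := zer_prod hl0 x N hN
    rw [← h1] at hN0
    exact Finset.prod_ne_zero_iff.mp hN0 ρ (Finset.mem_univ ρ)
  set Λ : Submodule H (Fin m → H) := Submodule.span H (Zer H K₁ l) with hΛ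
  -- the values of all elements of `Λ`
  have hprop : ∀ ρ, ∀ c ∈ Λ, ∃ a : H, ev H (x ρ) c = a • ev H (x ρ) l0 := by
    intro ρ c hc
    induction hc using Submodule.span_induction with
    | mem c hc => exact val_prop l b hb hl x N hN0 hN hc hl0 ρ
    | zero => exact ⟨0, by rw [map_zero, zero_smul]⟩
    | add c d _ _ hc hd =>
      obtain ⟨a, ha⟩ := hc
      obtain ⟨a', ha'⟩ := hd
      exact ⟨a + a', by rw [map_add, ha, ha', add_smul]⟩
    | smul t c _ hc =>
      obtain ⟨a, ha⟩ := hc
      exact ⟨t * a, by rw [map_smul, ha, smul_smul]⟩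
  -- the linear forms in the coordinates of `l`
  let J : Module.Dual H (Fin m → H) →ₗ[H] (Fin m → H) := LinearMap.pi fun j => LinearMap.applyₗ (Pi.single j 1)
  let A : Module.Dual H (Fin m → H) →ₗ[H] Ω := (ev H l).comp J
  have hA : ∀ G : Module.Dual H (Fin m → H), A G = aeval l (pol G) := fun G => (aeval_pol' G l).symm
  have hkill : ∀ g : MvPolynomial (Fin m) H, (∀ c ∈ Zer H K₁ l, aeval c g = 0) → aeval l g = 0 := by
    intro g hg
    by_contra h0
    obtain ⟨c, hc, hc2⟩ := rn (K₁ := K₁) l b hb hl g h0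
    exact hc2 (hg c hc)
  have hS : Module.finrank H (LinearMap.range A) + e ≤ m := by
    have h1 := LinearMap.finrank_range_add_finrank_ker A
    rw [Subspace.dual_finrank_eq, Module.finrank_fin_fun] at h1
    have h2 : Λ.dualAnnihilator ≤ LinearMap.ker A := by
      intro G hG
      rw [LinearMap.mem_ker, hA]
      refine hkill _ fun c hc => ?_
      rw [aeval_pol]
      exact (Submodule.mem_dualAnnihilator G).mp hG c (Submodule.subset_span hc)
    have h3 := Subspace.finrank_add_finrank_dualAnnihilator_eq Λ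
    rw [Module.finrank_fin_fun] at h3
    have h4 := Submodule.finrank_mono h2
    omega
  -- the multiplicative relation
  have hφ : ∀ σ, ∃ φ : K₁ →ₗ[H] H, φ (ev H (x σ) l0) = 1 := by
    intro σ
    obtain ⟨f, hf, -⟩ := Submodule.exists_le_ker_of_notMem (p := (⊥ : Submodule H K₁)) (v := ev H (x σ) l0)
      (by rw [Submodule.mem_bot]; exact hne σ)
    refine ⟨(f (ev H (x σ) l0))⁻¹ • f, ?_⟩
    rw [LinearMap.smul_apply, smul_eq_mul, inv_mul_cancel₀ hf]
  choose φ hφ using hφ
  let G : Fin r → Module.Dual H (Fin m → H) := fun σ => (φ σ).comp (ev H (x σ))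
  have hG : ∏ σ, A (G σ) = 1 := by
    have h1 := hkill ((∏ σ, pol (G σ)) - 1) (by
      intro c hc
      rw [map_sub, map_prod, map_one, sub_eq_zero]
      have h2 : ∀ σ, ev H (x σ) c = algebraMap H K₁ (G σ c) * ev H (x σ) l0 := by
        intro σ
        obtain ⟨a, ha⟩ := hprop σ c (Submodule.subset_span hc)
        have h3 : G σ c = a := by
          show φ σ (ev H (x σ) c) = a
          rw [ha, map_smul, hφ, smul_eq_mul, mul_one]
        rw [h3, ha, Algebra.smul_def]
      have h3 := zer_prod hc x N hN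
      rw [Finset.prod_congr rfl fun σ _ => h2 σ, Finset.prod_mul_distrib, zer_prod hl0 x N hN] at h3
      have h4 : ∏ σ, algebraMap H K₁ (G σ c) = 1 := by
        have := mul_right_cancel₀ hN0 (h3.trans (one_mul N).symm)
        exact this
      rw [← map_prod, ← map_one (algebraMap H K₁)] at h4
      rw [Finset.prod_congr rfl fun σ _ => aeval_pol (G σ) c]
      exact (algebraMap H K₁).injective h4)
    rw [map_sub, map_prod, map_one, sub_eq_zero] at h1
    rw [← h1]
    exact Finset.prod_congr rfl fun σ _ => hA (G σ)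
  -- a basis of the linear forms
  let B := Module.finBasis H (LinearMap.range A)
  let s : Fin (Module.finrank H (LinearMap.range A)) → Ω := fun c => (B c : Ω)
  have hrep : ∀ G : Module.Dual H (Fin m → H), ∃ a : Fin (Module.finrank H (LinearMap.range A)) → H,
      A G = ∑ c, algebraMap H Ω (a c) * s c := by
    intro G
    refine ⟨B.repr ⟨A G, ⟨G, rfl⟩⟩, ?_⟩
    have h1 := congrArg (LinearMap.range A).subtype (B.sum_repr ⟨A G, ⟨G, rfl⟩⟩)
    rw [map_sum] at h1
    refine h1.symm.trans (Finset.sum_congr rfl fun c _ => ?_)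
    rw [map_smul, Algebra.smul_def]
    rfl
  have hs : ¬ AlgebraicIndependent H s := by
    intro hind
    choose a ha using fun σ => hrep (G σ)
    have h1 : aeval s ((∏ σ, ∑ c, C (a σ c) * X c) - 1 : MvPolynomial _ H) = 0 := by
      rw [map_sub, map_prod, map_one, ← hG, sub_eq_zero]
      refine Finset.prod_congr rfl fun σ _ => ?_
      rw [ha, map_sum]
      refine Finset.sum_congr rfl fun c _ => ?_
      rw [map_mul, aeval_C, aeval_X]
    have h2 := (algebraicIndependent_iff.mp hind) _ h1
    have h3 := congrArg (eval (0 : Fin (Module.finrank H (LinearMap.range A)) → H)) h2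
    rw [map_sub, map_prod, map_one, map_zero, Finset.prod_eq_zero (Finset.mem_univ s0)] at h3
    · rw [zero_sub, neg_eq_zero] at h3
      exact one_ne_zero h3
    · rw [map_sum]
      exact Finset.sum_eq_zero fun c _ => by rw [map_mul, eval_X, Pi.zero_apply, mul_zero]
  have h1 := rk_lt s hs
  have h2 : (τ : ℕ∞) ≤ rk H (Set.range s) := by
    have h3 := rk_of_algInd (k := H) _ (hb.restrictScalars (algebraMap H K₁).injective)
    rw [Set.encard_univ] at h3
    have h4 : (τ : ℕ∞) = rk H (Set.range fun i => l (b i)) := by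
      rw [h3]
      simp
    rw [h4]
    refine rk_le_of_subset ?_
    rintro _ ⟨i, rfl⟩
    obtain ⟨a, ha⟩ := hrep (LinearMap.proj (b i))
    have h5 : A (LinearMap.proj (b i)) = l (b i) := by
      rw [hA]
      unfold pol
      rw [map_sum, Finset.sum_eq_single (b i)]
      · rw [map_mul, aeval_C, aeval_X, LinearMap.proj_apply, Pi.single_eq_same, map_one, one_mul]
      · intro j _ hj
        rw [map_mul, aeval_C, LinearMap.proj_apply, Pi.single_eq_of_ne hj.symm, map_zero, zero_mul]
      · intro h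
        exact absurd (Finset.mem_univ _) h
    show l (b i) ∈ _
    rw [← h5, ha]
    exact cl_sum _ _ fun c _ => cl_mul (cl_cst _ _) (subset_cl _ ⟨c, rfl⟩)
  have h3 : ((τ + 1 : ℕ) : ℕ∞) ≤ (Module.finrank H (LinearMap.range A) : ℕ∞) := by
    refine le_trans ?_ h1
    push_cast
    exact add_le_add_left h2 1
  have h4 : τ + 1 ≤ Module.finrank H (LinearMap.range A) := by exact_mod_cast h3
  omega

end

end Pool.Agent.PC
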