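import Pool.Agent.Helper77.GS.Bottom

/-!
# Project PC: relative Nullstellensatz

`H` is algebraically closed, `K₁` and `H(l)` are algebraically independent extensions of `H`. There are many points over `H` which
satisfy all equations of `l` over `K₁`.
-/

set_option autoImplicit false

namespace Pool.Agent.PC

open Pool.Agent.GS MvPolynomial

universe u

/-- Points over `H` which satisfy all equations of `l` over `K₁` -/
def Zer (H K₁ : Type u) {Ω : Type u} [Field H] [Field K₁] [Field Ω] [Algebra H K₁] [Algebra K₁ Ω] {m : ℕ} (l : Fin m → Ω) :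
    Set (Fin m → H) :=
  {l' | ∀ f : MvPolynomial (Fin m) K₁, aeval l f = 0 → aeval (fun j => algebraMap H K₁ (l' j)) f = 0}

theorem exists_eval_ne {H : Type u} [Field H] [Infinite H] {σ : Type*} [Finite σ] (f : MvPolynomial σ H) (hf : f ≠ 0) :
    ∃ b : σ → H, eval b f ≠ 0 := by
  by_contra h
  push Not at h
  exact hf (MvPolynomial.funext fun x => by rw [h x, map_zero])

section

variable {H K₁ Ω : Type u} [Field H] [Field K₁] [Field Ω] [Algebra H K₁] [Algebra K₁ Ω] [Algebra H Ω]

/-- an element algebraic over `H(s)`: an equation with coefficients polynomials in the `s` -/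
theorem exists_poly {τ : ℕ} (s : Fin τ → Ω) (hs : AlgebraicIndependent H s) (z : Ω)
    (hz : IsAlgebraic (Algebra.adjoin H (Set.range s)) z) :
    ∃ p : Polynomial (MvPolynomial (Fin τ) H), p ≠ 0 ∧ (z ≠ 0 → p.coeff 0 ≠ 0) ∧
      Polynomial.eval₂ (aeval s : MvPolynomial (Fin τ) H →ₐ[H] Ω).toRingHom z p = 0 := by
  have key : ∃ q : Polynomial (Algebra.adjoin H (Set.range s)), q ≠ 0 ∧ (z ≠ 0 → q.coeff 0 ≠ 0) ∧
      Polynomial.aeval z q = 0 := by
    by_cases h0 : z = 0
    · exact ⟨Polynomial.X, Polynomial.X_ne_zero, fun h => absurd h0 h, by rw [Polynomial.aeval_X, h0]⟩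
    · obtain ⟨q, hq, hq2⟩ := hz.exists_nonzero_coeff_and_aeval_eq_zero (mem_nonZeroDivisors_of_ne_zero h0)
      exact ⟨q, fun h => hq (by rw [h, Polynomial.coeff_zero]), fun _ => hq, hq2⟩
  obtain ⟨q, hq0, hq1, hq⟩ := key
  have hinj : Function.Injective (hs.aevalEquiv.symm : Algebra.adjoin H (Set.range s) →+* MvPolynomial (Fin τ) H) :=
    hs.aevalEquiv.symm.injective
  refine ⟨q.map (hs.aevalEquiv.symm : Algebra.adjoin H (Set.range s) →+* MvPolynomial (Fin τ) H), ?_, fun hz0 => ?_, ?_⟩
  · rwa [Ne, Polynomial.map_eq_zero_iff hinj]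
  · rw [Polynomial.coeff_map]
    exact fun h => hq1 hz0 ((map_eq_zero_iff _ hinj).mp h)
  · rw [Polynomial.eval₂_map]
    have h1 : ((aeval s : MvPolynomial (Fin τ) H →ₐ[H] Ω).toRingHom).comp
        (hs.aevalEquiv.symm : Algebra.adjoin H (Set.range s) →+* MvPolynomial (Fin τ) H) =
        algebraMap (Algebra.adjoin H (Set.range s)) Ω := by
      ext x
      obtain ⟨y, rfl⟩ := hs.aevalEquiv.surjective x
      show aeval s (hs.aevalEquiv.symm (hs.aevalEquiv y)) = ((hs.aevalEquiv y : Algebra.adjoin H (Set.range s)) : Ω)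
      rw [AlgEquiv.symm_apply_apply]
      exact (hs.algebraMap_aevalEquiv y).symm
    rw [h1]
    exact hq

theorem aeval_mem_cl {m : ℕ} (l : Fin m → Ω) (s : Set Ω) (hl : ∀ j, l j ∈ cl H s) (g : MvPolynomial (Fin m) H) :
    aeval l g ∈ cl H s := by
  induction g using MvPolynomial.induction_on with
  | C a =>
    rw [aeval_C]
    exact cl_cst s a
  | add p q hp hq =>
    rw [map_add]
    exact cl_add hp hq
  | mul_X p i hp =>
    rw [map_mul, aeval_X]
    exact cl_mul hp (hl i)

variable [IsScalarTower H K₁ Ω] [IsAlgClosed H]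

theorem rn {m τ : ℕ} (l : Fin m → Ω) (b : Fin τ → Fin m) (hb : AlgebraicIndependent K₁ fun i => l (b i))
    (hl : ∀ j, l j ∈ cl H (Set.range fun i => l (b i))) (g : MvPolynomial (Fin m) H) (hg : aeval l g ≠ 0) :
    ∃ l' ∈ Zer H K₁ l, aeval l' g ≠ 0 := by
  classical
  set s : Fin τ → Ω := fun i => l (b i) with hs
  have hsH : AlgebraicIndependent H s := hb.restrictScalars (algebraMap H K₁).injective
  have hinf : Infinite H := IsAlgClosed.instInfinite
  choose p hp0 hp1 hp using fun j => exists_poly s hsH (l j) (mem_cl.mp (hl j))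
  obtain ⟨pz, -, hpz1, hpz⟩ := exists_poly s hsH (aeval l g) (mem_cl.mp (aeval_mem_cl l _ hl g))
  have hD : (∏ j, (p j).leadingCoeff) * pz.coeff 0 ≠ 0 :=
    mul_ne_zero (Finset.prod_ne_zero_iff.mpr fun j _ => Polynomial.leadingCoeff_ne_zero.mpr (hp0 j)) (hpz1 hg)
  obtain ⟨β, hβ⟩ := exists_eval_ne _ hD
  rw [map_mul, map_prod] at hβ
  have hβj : ∀ j, eval β (p j).leadingCoeff ≠ 0 := fun j =>
    Finset.prod_ne_zero_iff.mp (left_ne_zero_of_mul hβ) j (Finset.mem_univ j)
  have hβz : eval β (pz.coeff 0) ≠ 0 := right_ne_zero_of_mul hβ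
  -- the valuation ring
  let ev : Algebra.adjoin K₁ (Set.range s) →+* K₁ :=
    (eval fun i => algebraMap H K₁ (β i)).comp
      (hb.aevalEquiv.symm : Algebra.adjoin K₁ (Set.range s) →+* MvPolynomial (Fin τ) K₁)
  obtain ⟨V, hV1, hV2⟩ := Ideal.image_subset_nonunits_valuationSubring
    (A := (Algebra.adjoin K₁ (Set.range s)).toSubring) (RingHom.ker ev) (RingHom.ker_ne_top ev)
  have hV : ∀ c : K₁, algebraMap K₁ Ω c ∈ V := fun c => hV1 (Subalgebra.algebraMap_mem _ c)
  let P : Pla K₁ Ω := ⟨V, hV⟩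
  have hsV : ∀ i, s i ∈ P.O := fun i => hV1 (Algebra.subset_adjoin ⟨i, rfl⟩)
  have hsres : ∀ i, P.res (s i) = algebraMap K₁ P.K (algebraMap H K₁ (β i)) := by
    intro i
    have h1 : s i - algebraMap K₁ Ω (algebraMap H K₁ (β i)) ∈ V.nonunits := by
      apply hV2
      let x1 : Algebra.adjoin K₁ (Set.range s) := ⟨s i, Algebra.subset_adjoin ⟨i, rfl⟩⟩
      let x2 : Algebra.adjoin K₁ (Set.range s) := algebraMap K₁ _ (algebraMap H K₁ (β i))
      refine ⟨x1 - x2, ?_, rfl⟩
      show ev (x1 - x2) = 0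
      rw [map_sub, sub_eq_zero]
      have h2 : hb.aevalEquiv (X i) = x1 := by
        apply Subtype.ext
        have := hb.algebraMap_aevalEquiv (X i)
        rw [aeval_X] at this
        exact this
      have h3 : ev x1 = algebraMap H K₁ (β i) := by
        show eval _ (hb.aevalEquiv.symm _) = _
        rw [← h2, AlgEquiv.symm_apply_apply, eval_X]
      have h4 : ev x2 = algebraMap H K₁ (β i) := by
        show eval _ (hb.aevalEquiv.symm _) = _
        rw [AlgEquiv.commutes, MvPolynomial.algebraMap_eq, eval_C]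
      rw [h3, h4]
    have h2 : P.res (s i - algebraMap K₁ Ω (algebraMap H K₁ (β i))) = 0 := by
      rw [P.res_eq_zero (P.O.toSubring.sub_mem (hsV i) (hV _))]
      exact h1
    have h3 : P.res (s i) = P.res (s i - algebraMap K₁ Ω (algebraMap H K₁ (β i))) +
        P.res (algebraMap K₁ Ω (algebraMap H K₁ (β i))) := by
      rw [← P.res_add (P.O.toSubring.sub_mem (hsV i) (hV _)) (hV _), sub_add_cancel]
    rw [h3, h2, zero_add, P.res_cst]
  let ι : H →+* P.K := (algebraMap K₁ P.K).comp (algebraMap H K₁)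
  let : Algebra H P.K := ι.toAlgebra
  have : IsScalarTower H K₁ P.K := IsScalarTower.of_algebraMap_eq fun _ => rfl
  -- polynomials in `s`
  have hφ : ∀ f : MvPolynomial (Fin τ) H, aeval s f ∈ P.O := by
    intro f
    have h1 := (P.res_aeval (map (algebraMap H K₁) f) s hsV).1
    rwa [aeval_map_algebraMap] at h1
  let φ : MvPolynomial (Fin τ) H →+* P.O := (aeval s : MvPolynomial (Fin τ) H →ₐ[H] Ω).toRingHom.codRestrict P.O hφ
  have hψ : P.r.comp φ = ι.comp (eval β) := by
    apply MvPolynomial.ringHom_ext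
    · intro c
      show P.r (φ (C c)) = ι (eval β (C c))
      rw [eval_C]
      have h1 : P.r (φ (C c)) = P.res (aeval s (C c)) := (P.res_of_mem (hφ _)).symm
      rw [h1, aeval_C, IsScalarTower.algebraMap_apply H K₁ Ω, P.res_cst]
      rfl
    · intro i
      show P.r (φ (X i)) = ι (eval β (X i))
      rw [eval_X]
      have h1 : P.r (φ (X i)) = P.res (aeval s (X i)) := (P.res_of_mem (hφ _)).symm
      rw [h1, aeval_X, hsres]
      rfl
  have hφ0 : ∀ f : MvPolynomial (Fin τ) H, eval β f ≠ 0 → P.r (φ f) ≠ 0 := by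
    intro f hf h0
    have h1 : (P.r.comp φ) f = 0 := h0
    rw [hψ] at h1
    exact hf ((map_eq_zero ι).mp h1)
  -- the general statement on residues
  have gen : ∀ (z : Ω) (hz : z ∈ P.O) (pp : Polynomial (MvPolynomial (Fin τ) H)),
      Polynomial.eval₂ (aeval s : MvPolynomial (Fin τ) H →ₐ[H] Ω).toRingHom z pp = 0 →
      Polynomial.eval₂ ι (P.res z) (pp.map (eval β)) = 0 := by
    intro z hz pp hpp
    have h1 : Polynomial.eval₂ φ ⟨z, hz⟩ pp = 0 := by
      apply Subtype.ext
      have h2 : ((Polynomial.eval₂ φ ⟨z, hz⟩ pp : P.O) : Ω) =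
          Polynomial.eval₂ ((P.O.subtype).comp φ) z pp := by
        exact Polynomial.hom_eval₂ pp φ P.O.subtype ⟨z, hz⟩
      rw [h2]
      exact hpp
    have h3 := congrArg P.r h1
    rw [map_zero, Polynomial.hom_eval₂, hψ] at h3
    rw [Polynomial.eval₂_map, P.res_of_mem hz]
    exact h3
  have hlV : ∀ j, l j ∈ P.O := by
    intro j
    have hφl : φ (p j).leadingCoeff ≠ 0 := fun h => hφ0 _ (hβj j) (by rw [h, map_zero])
    have h1 : Polynomial.aeval (l j) ((p j).map φ) = 0 := by
      rw [Polynomial.aeval_def, Polynomial.eval₂_map]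
      exact hp j
    have h2 := isIntegral_leadingCoeff_smul _ _ h1
    rw [Polynomial.leadingCoeff_map_of_leadingCoeff_ne_zero φ hφl] at h2
    have h3 : ∃ y : P.O, algebraMap P.O Ω y = φ (p j).leadingCoeff • l j := IsIntegrallyClosed.isIntegral_iff.mp h2
    obtain ⟨y, hy⟩ := h3
    have h4 : IsUnit (φ (p j).leadingCoeff) := by
      by_contra hu
      apply hφ0 _ (hβj j)
      exact (IsLocalRing.residue_eq_zero_iff _).mpr ((IsLocalRing.mem_maximalIdeal _).mpr hu)
    obtain ⟨w, hw⟩ := h4.exists_left_inv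
    have h5 : l j = algebraMap P.O Ω (w * y) := by
      rw [map_mul, hy, Algebra.smul_def, ← mul_assoc, ← map_mul, hw, map_one, one_mul]
    rw [h5]
    exact (w * y).2
  have hcst : ∀ j, ∃ h : H, P.res (l j) = algebraMap H P.K h := by
    intro j
    have h1 := gen (l j) (hlV j) (p j) (hp j)
    refine cst_of_isAlgebraic (F := H) (P.res (l j)) ⟨(p j).map (eval β), ?_, h1⟩
    intro h0
    have h2 := congrArg (fun q => q.coeff (p j).natDegree) h0
    simp only [Polynomial.coeff_map, Polynomial.coeff_zero] at h2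
    exact hβj j h2
  choose l' hl' using hcst
  refine ⟨l', ?_, ?_⟩
  · intro f hf
    have h1 := (P.res_aeval f l hlV).2
    rw [hf, P.res_zero] at h1
    have h2 : aeval (fun a => P.res (l a)) f = algebraMap K₁ P.K (aeval (fun j => algebraMap H K₁ (l' j)) f) := by
      rw [← aeval_algebraMap_apply]
      congr 2
      funext a
      exact hl' a
    rw [h2] at h1
    exact (map_eq_zero (algebraMap K₁ P.K)).mp h1.symm
  · intro h0
    have hzV : aeval l g ∈ P.O := by
      have h1 := (P.res_aeval (map (algebraMap H K₁) g) l hlV).1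
      rwa [aeval_map_algebraMap] at h1
    have hres : P.res (aeval l g) = 0 := by
      have h1 := (P.res_aeval (map (algebraMap H K₁) g) l hlV).2
      rw [aeval_map_algebraMap] at h1
      rw [h1, aeval_map_algebraMap]
      have h2 : (fun a => P.res (l a)) = fun a => algebraMap H P.K (l' a) := funext hl'
      have h3 : aeval (fun a => algebraMap H P.K (l' a)) g = algebraMap H P.K (aeval l' g) :=
        aeval_algebraMap_apply _ _ _
      rw [h2, h3, h0, map_zero]
    have h1 := gen _ hzV pz hpz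
    rw [hres, Polynomial.eval₂_at_zero, Polynomial.coeff_map] at h1
    exact hβz ((map_eq_zero ι).mp h1)

end

end Pool.Agent.PC
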